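import Pool.Agent.H9.FM.SemiNear

set_option autoImplicit false

/-!
# Lattices covered by few elements which lie below nearly half of the elements
-/

namespace Pool.Agent.H9.FM

/-- In a finite lattice `z ≤ w` holds as soon as every join-irreducible below `z` is below `w`. -/
theorem le_of_forall_supIrred {L : Type*} [Lattice L] [Finite L] {z w : L}
    (h : ∀ c : L, SupIrred c → c ≤ z → c ≤ w) : z ≤ w := by
  classical
  by_contra hzw
  obtain ⟨c, hc⟩ := (Set.toFinite {c : L | c ≤ z ∧ ¬ c ≤ w}).exists_minimal ⟨z, le_rfl, hzw⟩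
  refine hc.prop.2 (h c ⟨fun hmin => hc.prop.2 ((hmin inf_le_left).trans inf_le_right), ?_⟩
    hc.prop.1)
  intro b d hbd
  by_contra hne
  push Not at hne
  have hb : b < c := lt_of_le_of_ne (hbd ▸ le_sup_left) hne.1
  have hd : d < c := lt_of_le_of_ne (hbd ▸ le_sup_right) hne.2
  have key : ∀ e : L, e < c → e ≤ w := by
    intro e he
    by_contra hew
    exact absurd (hc.le_of_le ⟨he.le.trans hc.prop.1, hew⟩ he.le) (not_le_of_gt he)
  exact hc.prop.2 (hbd ▸ sup_le (key b hb) (key d hd))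

/-- Let `L` be a finite lattice with `N` elements and `z m`, `m ∈ ι`, `|ι| = r`, elements such that every
join-irreducible is below some `z m`. If every `z m` lies below at least `(N / 2) (1 - 1 / (2 (r + 1)))`
elements, then `N ≤ 2 ^ (2 r (r + 1))`. -/
theorem nearHalf {L ι : Type*} [Lattice L] [Finite L] [Fintype ι] (z : ι → L)
    (hz : ∀ j : L, SupIrred j → ∃ m, j ≤ z m)
    (h : ∀ m, (Nat.card L : ℝ) / 2 * (1 - 1 / (2 * ((Fintype.card ι : ℝ) + 1))) ≤
      (Nat.card {x : L // z m ≤ x} : ℝ)) :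
    Nat.card L ≤ 2 ^ (2 * (Fintype.card ι * (Fintype.card ι + 1))) := by
  classical
  have := Fintype.ofFinite L
  have hinj : ∀ x y : L, (∀ m, x ⊓ z m = y ⊓ z m) → x = y := by
    have hle : ∀ x y : L, (∀ m, x ⊓ z m = y ⊓ z m) → x ≤ y := by
      intro x y h
      refine le_of_forall_supIrred fun c hc hcx => ?_
      obtain ⟨m, hcm⟩ := hz c hc
      have h1 : c ≤ x ⊓ z m := le_inf hcx hcm
      rw [h m] at h1
      exact h1.trans inf_le_left
    intro x y h
    exact le_antisymm (hle x y h) (hle y x fun m => (h m).symm)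
  rw [Nat.card_eq_fintype_card (α := L)] at h ⊢
  exact near_tops z hinj h

/-- The same with `Fin r`. -/
theorem nearHalf_fin {L : Type*} [Lattice L] [Finite L] {r : ℕ} (z : Fin r → L)
    (hz : ∀ j : L, SupIrred j → ∃ m, j ≤ z m)
    (h : ∀ m, (Nat.card L : ℝ) / 2 * (1 - 1 / (2 * ((r : ℝ) + 1))) ≤
      (Nat.card {x : L // z m ≤ x} : ℝ)) :
    Nat.card L ≤ 2 ^ (2 * (r * (r + 1))) := by
  have h1 := nearHalf z hz (by rw [Fintype.card_fin]; exact h)
  rw [Fintype.card_fin] at h1
  exact h1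

end Pool.Agent.H9.FM
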