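import Pool.Agent.H9.FM.Trace

/-!
# The analytic core
-/

set_option autoImplicit false

namespace Pool.Agent.H9.FM

open Finset

/-- Few classes: `∑ log |class of x| ≥ N (log N - r log 2)`. -/
theorem sum_log_ge {X ι : Type*} [Fintype X] [Fintype ι] [DecidableEq ι] (T : X → Finset ι) :
    (Fintype.card X : ℝ) * (Real.log (Fintype.card X) - Fintype.card ι * Real.log 2) ≤
      ∑ x, Real.log ((Finset.univ.filter fun y => T y = T x).card) := by
  classical
  rcases isEmpty_or_nonempty X with hX | hX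
  · simp
  have hN : (0 : ℝ) < Fintype.card X := by
    exact_mod_cast Fintype.card_pos
  have hD : ∀ x, (0 : ℝ) < ((Finset.univ.filter fun y => T y = T x).card : ℝ) := by
    intro x
    exact_mod_cast Finset.card_pos.2 ⟨x, by simp⟩
  have h2 : (0 : ℝ) < 2 ^ Fintype.card ι := by positivity
  have hinv : ∑ x, ((Finset.univ.filter fun y => T y = T x).card : ℝ)⁻¹ ≤ 2 ^ Fintype.card ι := by
    rw [← Finset.sum_fiberwise (s := Finset.univ) (g := T)]
    calc ∑ S : Finset ι, ∑ x ∈ Finset.univ with T x = S,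
          ((Finset.univ.filter fun y => T y = T x).card : ℝ)⁻¹
        ≤ ∑ S : Finset ι, (1 : ℝ) := by
          refine Finset.sum_le_sum fun S _ => ?_
          have h1 : ∑ x ∈ Finset.univ with T x = S,
              ((Finset.univ.filter fun y => T y = T x).card : ℝ)⁻¹ =
              ∑ x ∈ Finset.univ with T x = S,
              ((Finset.univ.filter fun y => T y = S).card : ℝ)⁻¹ := by
            refine Finset.sum_congr rfl fun x hx => ?_
            rw [(Finset.mem_filter.1 hx).2]
          rw [h1, Finset.sum_const, nsmul_eq_mul]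
          exact mul_inv_le_one
      _ = 2 ^ Fintype.card ι := by
          rw [Finset.sum_const, Finset.card_univ, Fintype.card_finset, nsmul_eq_mul, mul_one]
          push_cast
          rfl
  have hpt : ∀ x, Real.log (Fintype.card X) - Fintype.card ι * Real.log 2 + 1 -
      (Fintype.card X : ℝ) / 2 ^ Fintype.card ι *
        ((Finset.univ.filter fun y => T y = T x).card : ℝ)⁻¹ ≤
      Real.log ((Finset.univ.filter fun y => T y = T x).card) := by
    intro x
    have h1 := Real.log_le_sub_one_of_pos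
      (show 0 < (Fintype.card X : ℝ) / 2 ^ Fintype.card ι *
        ((Finset.univ.filter fun y => T y = T x).card : ℝ)⁻¹ from
        mul_pos (div_pos hN h2) (inv_pos.2 (hD x)))
    rw [Real.log_mul (div_pos hN h2).ne' (inv_pos.2 (hD x)).ne', Real.log_inv,
      Real.log_div hN.ne' h2.ne', Real.log_pow] at h1
    linarith
  have hsum := Finset.sum_le_sum fun x (_ : x ∈ (Finset.univ : Finset X)) => hpt x
  rw [Finset.sum_sub_distrib, Finset.sum_const, Finset.card_univ, nsmul_eq_mul,
    ← Finset.mul_sum] at hsum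
  have h3 : (Fintype.card X : ℝ) / 2 ^ Fintype.card ι *
      ∑ x, ((Finset.univ.filter fun y => T y = T x).card : ℝ)⁻¹ ≤ Fintype.card X := by
    calc (Fintype.card X : ℝ) / 2 ^ Fintype.card ι *
      ∑ x, ((Finset.univ.filter fun y => T y = T x).card : ℝ)⁻¹
        ≤ (Fintype.card X : ℝ) / 2 ^ Fintype.card ι * 2 ^ Fintype.card ι :=
          mul_le_mul_of_nonneg_left hinv (div_pos hN h2).le
      _ = Fintype.card X := by field_simp
  linarith

/-- The analytic core: if every `m` lies in at least half of the sets `T x`, there are at most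
`2 ^ (r (r + 1))` elements `x`. -/
theorem core {X ι : Type*} [Fintype X] [Fintype ι] [DecidableEq ι] (T : X → Finset ι)
    (w : X → ι → ℝ) (hw : ∀ x m, 0 ≤ w x m)
    (hpair : ∀ x y, ∑ m ∈ T y, w x m + ∑ m ∈ T x, w y m ≤ Real.log (Fintype.card X))
    (hself : ∀ x, ∑ m ∈ T x, w x m = 0)
    (hsum : ∀ x, ∑ m, w x m = Real.log ((Finset.univ.filter fun y => T y = T x).card))
    (hu : ∀ m, Fintype.card X ≤ 2 * (Finset.univ.filter fun y => m ∈ T y).card) :
    Fintype.card X ≤ 2 ^ (Fintype.card ι * (Fintype.card ι + 1)) := by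
  classical
  rcases Nat.lt_or_ge 1 (Fintype.card X) with hX | hX
  swap
  · exact hX.trans Nat.one_le_two_pow
  obtain ⟨N, hN⟩ : ∃ N : ℝ, N = Fintype.card X := ⟨_, rfl⟩
  obtain ⟨r, hr⟩ : ∃ r : ℝ, r = Fintype.card ι := ⟨_, rfl⟩
  obtain ⟨c, hc⟩ : ∃ c : ℝ, c = Real.log (Fintype.card X) := ⟨_, rfl⟩
  have hN1 : (1 : ℝ) < N := by rw [hN]; exact_mod_cast hX
  have hN0 : (0 : ℝ) < N := by linarith
  have hc0 : 0 < c := by rw [hc, ← hN]; exact Real.log_pos hN1
  have hr0 : 0 ≤ r := by rw [hr]; positivity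
  obtain ⟨M, hM⟩ : ∃ M : X → X → ℝ, M = fun x y => ∑ m ∈ T y, w x m + ∑ m ∈ T x, w y m :=
    ⟨_, rfl⟩
  have hM0 : ∀ x y, 0 ≤ M x y := by
    intro x y
    rw [hM]
    exact add_nonneg (Finset.sum_nonneg fun m _ => hw x m) (Finset.sum_nonneg fun m _ => hw y m)
  have hMc : ∀ x y, M x y ≤ c := by
    intro x y
    rw [hM, hc]
    exact hpair x y
  have hMx : ∀ x, M x x = 0 := by
    intro x
    rw [hM]
    simp only [hself x, add_zero]
  -- the trace inequality
  have htr := trace_bound (X := X) (ι := ι) c hc0.le w (fun x m => if m ∈ T x then 1 else 0)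
    (fun x y => c - M x y) (by
      intro x y
      rw [hM]
      simp only [mul_ite, mul_one, mul_zero]
      rw [Finset.sum_add_distrib, Finset.sum_ite_mem, Finset.sum_ite_mem]
      simp only [Finset.univ_inter])
    (Finset.sum_nonneg fun x _ => by
      rw [hMx, sub_zero]
      exact hc0.le)
  simp only [hMx, sub_zero, Finset.sum_const, Finset.card_univ, nsmul_eq_mul] at htr
  rw [← hN, ← hr] at htr
  -- the sum of squares
  have hsq : ∑ x, ∑ y, (c - M x y) ^ 2 ≤ c * (N ^ 2 * c - ∑ x, ∑ y, M x y) := by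
    have h1 : ∑ x, ∑ y, (c - M x y) ^ 2 ≤ ∑ x : X, ∑ y : X, (c * c - c * M x y) := by
      refine Finset.sum_le_sum fun x _ => Finset.sum_le_sum fun y _ => ?_
      nlinarith [hM0 x y, hMc x y]
    refine h1.trans (le_of_eq ?_)
    simp only [Finset.sum_sub_distrib, Finset.sum_const, Finset.card_univ, nsmul_eq_mul,
      ← Finset.mul_sum]
    rw [← hN]
    ring
  -- the sum of `M`
  have hMs : N * ∑ x, ∑ m, w x m ≤ ∑ x, ∑ y, M x y := by
    have h1 : ∑ x, ∑ y, M x y = 2 * ∑ x, ∑ y, ∑ m ∈ T y, w x m := by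
      rw [hM]
      simp only [Finset.sum_add_distrib]
      rw [Finset.sum_comm (f := fun x y => ∑ m ∈ T x, w y m)]
      ring
    have h2 : ∀ x, ∑ y, ∑ m ∈ T y, w x m =
        ∑ m, ((Finset.univ.filter fun y => m ∈ T y).card : ℝ) * w x m := by
      intro x
      have h3 : ∀ y, ∑ m ∈ T y, w x m = ∑ m, if m ∈ T y then w x m else 0 := by
        intro y
        rw [Finset.sum_ite_mem, Finset.univ_inter]
      simp only [h3]
      rw [Finset.sum_comm]
      refine Finset.sum_congr rfl fun m _ => ?_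
      rw [← Finset.sum_filter, Finset.sum_const, nsmul_eq_mul]
    rw [h1, Finset.mul_sum, Finset.mul_sum]
    refine Finset.sum_le_sum fun x _ => ?_
    rw [h2, Finset.mul_sum, Finset.mul_sum]
    refine Finset.sum_le_sum fun m _ => ?_
    have h4 : N ≤ 2 * ((Finset.univ.filter fun y => m ∈ T y).card : ℝ) := by
      rw [hN]
      exact_mod_cast hu m
    nlinarith [hw x m]
  have hlog := sum_log_ge T
  rw [← hc, ← hN, ← hr] at hlog
  have hlog' : N * (c - r * Real.log 2) ≤ ∑ x, ∑ m, w x m := by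
    rw [Finset.sum_congr rfl fun x _ => hsum x]
    exact hlog
  have hfin : N ^ 2 * c - ∑ x, ∑ y, M x y ≤ N ^ 2 * (r * Real.log 2) := by
    nlinarith [mul_le_mul_of_nonneg_left hlog' hN0.le]
  have hkey : (N * c) ^ 2 ≤ (r + 1) * (c * (N ^ 2 * (r * Real.log 2))) := by
    refine htr.trans (mul_le_mul_of_nonneg_left (hsq.trans ?_) (by linarith))
    exact mul_le_mul_of_nonneg_left hfin hc0.le
  have hc2 : c ≤ r * (r + 1) * Real.log 2 := by
    have h5 : (N ^ 2 * c) * c ≤ (N ^ 2 * c) * (r * (r + 1) * Real.log 2) := by nlinarith [hkey]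
    exact le_of_mul_le_mul_left h5 (by positivity)
  have h6 : Real.log (Fintype.card X) ≤
      Real.log ((2 : ℝ) ^ (Fintype.card ι * (Fintype.card ι + 1))) := by
    rw [Real.log_pow, ← hc]
    push_cast
    rw [← hr]
    exact hc2
  have h7 := (Real.log_le_log_iff (by rw [← hN]; exact hN0) (by positivity)).1 h6
  exact_mod_cast h7

end Pool.Agent.H9.FM
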