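import Pool.Agent.H9.FM.Core

/-!
# The analytic core
-/

set_option autoImplicit false

namespace Pool.Agent.H9.FM

open Finset

/-- The analytic core: if every `m` lies in at least the proportion `(1 - 1 / (2 (r + 1))) / 2` of the sets
`T x`, there are at most `2 ^ (2 r (r + 1))` elements `x`. -/
theorem core_near {X ι : Type*} [Fintype X] [Fintype ι] [DecidableEq ι] (T : X → Finset ι)
    (w : X → ι → ℝ) (hw : ∀ x m, 0 ≤ w x m)
    (hpair : ∀ x y, ∑ m ∈ T y, w x m + ∑ m ∈ T x, w y m ≤ Real.log (Fintype.card X))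
    (hself : ∀ x, ∑ m ∈ T x, w x m = 0)
    (hsum : ∀ x, ∑ m, w x m = Real.log ((Finset.univ.filter fun y => T y = T x).card))
    (hu : ∀ m, (Fintype.card X : ℝ) / 2 * (1 - 1 / (2 * ((Fintype.card ι : ℝ) + 1))) ≤
      ((Finset.univ.filter fun y => m ∈ T y).card : ℝ)) :
    Fintype.card X ≤ 2 ^ (2 * (Fintype.card ι * (Fintype.card ι + 1))) := by
  classical
  rcases Nat.lt_or_ge 1 (Fintype.card X) with hX | hX
  swap
  · exact hX.trans Nat.one_le_two_pow
  obtain ⟨N, hN⟩ : ∃ N : ℝ, N = Fintype.card X := ⟨_, rfl⟩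
  obtain ⟨r, hr⟩ : ∃ r : ℝ, r = Fintype.card ι := ⟨_, rfl⟩
  obtain ⟨c, hc⟩ : ∃ c : ℝ, c = Real.log (Fintype.card X) := ⟨_, rfl⟩
  have hN1 : (1 : ℝ) < N := by rw [hN]; exact_mod_cast hX
  have hN0 : (0 : ℝ) < N := by linarith
  have hc0 : 0 < c := by rw [hc, ← hN]; exact Real.log_pos hN1
  have hr0 : 0 ≤ r := by rw [hr]; positivity
  obtain ⟨M, hM⟩ : ∃ M : X → X → ℝ, M = fun x y => ∑ m ∈ T y, w x m + ∑ m ∈ T x, w y m :=
    ⟨_, rfl⟩
  have hM0 : ∀ x y, 0 ≤ M x y := by
    intro x y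
    rw [hM]
    exact add_nonneg (Finset.sum_nonneg fun m _ => hw x m) (Finset.sum_nonneg fun m _ => hw y m)
  have hMc : ∀ x y, M x y ≤ c := by
    intro x y
    rw [hM, hc]
    exact hpair x y
  have hMx : ∀ x, M x x = 0 := by
    intro x
    rw [hM]
    simp only [hself x, add_zero]
  -- the trace inequality
  have htr := trace_bound (X := X) (ι := ι) c hc0.le w (fun x m => if m ∈ T x then 1 else 0)
    (fun x y => c - M x y) (by
      intro x y
      rw [hM]
      simp only [mul_ite, mul_one, mul_zero]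
      rw [Finset.sum_add_distrib, Finset.sum_ite_mem, Finset.sum_ite_mem]
      simp only [Finset.univ_inter])
    (Finset.sum_nonneg fun x _ => by
      rw [hMx, sub_zero]
      exact hc0.le)
  simp only [hMx, sub_zero, Finset.sum_const, Finset.card_univ, nsmul_eq_mul] at htr
  rw [← hN, ← hr] at htr
  -- the sum of squares
  have hsq : ∑ x, ∑ y, (c - M x y) ^ 2 ≤ c * (N ^ 2 * c - ∑ x, ∑ y, M x y) := by
    have h1 : ∑ x, ∑ y, (c - M x y) ^ 2 ≤ ∑ x : X, ∑ y : X, (c * c - c * M x y) := by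
      refine Finset.sum_le_sum fun x _ => Finset.sum_le_sum fun y _ => ?_
      nlinarith [hM0 x y, hMc x y]
    refine h1.trans (le_of_eq ?_)
    simp only [Finset.sum_sub_distrib, Finset.sum_const, Finset.card_univ, nsmul_eq_mul,
      ← Finset.mul_sum]
    rw [← hN]
    ring
  -- the sum of `M`
  obtain ⟨q, hq⟩ : ∃ q : ℝ, q = 1 - 1 / (2 * (r + 1)) := ⟨_, rfl⟩
  have hq0 : 0 ≤ q := by
    rw [hq, sub_nonneg, div_le_one (by linarith)]
    linarith
  have hq1 : (r + 1) * (1 - q) = 1 / 2 := by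
    rw [hq]
    have : r + 1 ≠ 0 := by linarith
    field_simp
    ring
  have hMs : q * N * ∑ x, ∑ m, w x m ≤ ∑ x, ∑ y, M x y := by
    have h1 : ∑ x, ∑ y, M x y = 2 * ∑ x, ∑ y, ∑ m ∈ T y, w x m := by
      rw [hM]
      simp only [Finset.sum_add_distrib]
      rw [Finset.sum_comm (f := fun x y => ∑ m ∈ T x, w y m)]
      ring
    have h2 : ∀ x, ∑ y, ∑ m ∈ T y, w x m =
        ∑ m, ((Finset.univ.filter fun y => m ∈ T y).card : ℝ) * w x m := by
      intro x
      have h3 : ∀ y, ∑ m ∈ T y, w x m = ∑ m, if m ∈ T y then w x m else 0 := by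
        intro y
        rw [Finset.sum_ite_mem, Finset.univ_inter]
      simp only [h3]
      rw [Finset.sum_comm]
      refine Finset.sum_congr rfl fun m _ => ?_
      rw [← Finset.sum_filter, Finset.sum_const, nsmul_eq_mul]
    rw [h1, Finset.mul_sum, Finset.mul_sum]
    refine Finset.sum_le_sum fun x _ => ?_
    rw [h2, Finset.mul_sum, Finset.mul_sum]
    refine Finset.sum_le_sum fun m _ => ?_
    have h4 : q * N ≤ 2 * ((Finset.univ.filter fun y => m ∈ T y).card : ℝ) := by
      have h5 := hu m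
      rw [← hN, ← hr, ← hq] at h5
      linarith
    nlinarith [hw x m]
  have hlog := sum_log_ge T
  rw [← hc, ← hN, ← hr] at hlog
  have hlog' : N * (c - r * Real.log 2) ≤ ∑ x, ∑ m, w x m := by
    rw [Finset.sum_congr rfl fun x _ => hsum x]
    exact hlog
  have hlog2 : 0 < Real.log 2 := Real.log_pos (by norm_num)
  have hfin : N ^ 2 * c - ∑ x, ∑ y, M x y ≤ N ^ 2 * ((1 - q) * c + r * Real.log 2) := by
    have h6 := mul_le_mul_of_nonneg_left hlog' (mul_nonneg hq0 hN0.le)
    have h7 : 0 ≤ N ^ 2 * ((1 - q) * (r * Real.log 2)) := by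
      have h8 : 0 ≤ 1 - q := by
        by_contra hcon
        nlinarith
      positivity
    nlinarith
  have hkey : (N * c) ^ 2 ≤ (r + 1) * (c * (N ^ 2 * ((1 - q) * c + r * Real.log 2))) := by
    refine htr.trans (mul_le_mul_of_nonneg_left (hsq.trans ?_) (by linarith))
    exact mul_le_mul_of_nonneg_left hfin hc0.le
  have hc2 : c ≤ 2 * (r * (r + 1)) * Real.log 2 := by
    have h5 : (N ^ 2 * c) * c ≤ (N ^ 2 * c) * ((r + 1) * ((1 - q) * c + r * Real.log 2)) := by
      refine le_trans (le_of_eq ?_) (hkey.trans (le_of_eq ?_))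
      · ring
      · ring
    have h6 := le_of_mul_le_mul_left h5 (by positivity)
    have h7 : (r + 1) * ((1 - q) * c + r * Real.log 2) =
        (r + 1) * (1 - q) * c + (r + 1) * r * Real.log 2 := by ring
    rw [h7, hq1] at h6
    linarith
  have h6 : Real.log (Fintype.card X) ≤
      Real.log ((2 : ℝ) ^ (2 * (Fintype.card ι * (Fintype.card ι + 1)))) := by
    rw [Real.log_pow, ← hc]
    push_cast
    rw [← hr]
    exact hc2
  have h7 := (Real.log_le_log_iff (by rw [← hN]; exact hN0) (by positivity)).1 h6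
  exact_mod_cast h7

end Pool.Agent.H9.FM
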