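import Mathlib

set_option autoImplicit false

/-!
# Elements below nearly half of a lattice are covered by few such elements

For a finite lattice `L` with `N` elements write `Near e z` for `|{x : z ≤ x}| ≥ (1 / 2 - e) N` and `Freq c z` for
`|{x : z ≤ x}| ≥ c N`. Let `J` be a set of elements which contains the bottom and is closed under joins. If
`c < (1 / 2) ^ (n + 1)` and the members `z` of `J` with `Freq c z` contain no chain of `n + 2` elements, then for
every positive function `F` the members `s` of `J` with `Near δ s` lie below at most `r ≤ R` elements `z` with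
`Near (F r) z`, where `δ > 0` and `R` depend only on `n`, `c`, `F` (`covTop`).
-/

universe u

namespace Pool.Agent.H9.FM.CG

/-- `z` lies below at least the proportion `1 / 2 - e` of the elements. -/
def Near {L : Type u} [LE L] (e : ℝ) (z : L) : Prop :=
  (1 / 2 - e) * (Nat.card L : ℝ) ≤ (Nat.card {x : L // z ≤ x} : ℝ)

/-- `z` lies below at least the proportion `c` of the elements. -/
def Freq {L : Type u} [LE L] (c : ℝ) (z : L) : Prop :=
  c * (Nat.card L : ℝ) ≤ (Nat.card {x : L // z ≤ x} : ℝ)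

theorem Near.mono {L : Type u} [LE L] {e e' : ℝ} {z : L} (h : Near e z) (hee : e ≤ e') :
    Near e' z := by
  unfold Near at h ⊢
  refine le_trans ?_ h
  exact mul_le_mul_of_nonneg_right (by linarith) (Nat.cast_nonneg _)

theorem Freq.anti {L : Type u} [Preorder L] [Finite L] {c : ℝ} {z w : L} (hzw : z ≤ w)
    (h : Freq c w) : Freq c z := by
  unfold Freq at h ⊢
  refine h.trans ?_
  have h1 : Nat.card {x : L // w ≤ x} ≤ Nat.card {x : L // z ≤ x} :=
    Nat.card_le_card_of_injective (fun x => ⟨x.1, hzw.trans x.2⟩)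
      (fun x y hxy => Subtype.ext (congrArg (fun t : {x : L // z ≤ x} => t.1) hxy))
  exact_mod_cast h1

theorem Near.freq {L : Type u} [LE L] {e c : ℝ} {z : L} (h : Near e z) (hc : c ≤ 1 / 2 - e) :
    Freq c z := by
  unfold Near at h
  unfold Freq
  exact (mul_le_mul_of_nonneg_right hc (Nat.cast_nonneg _)).trans h

/-- `J` contains the bottom and is closed under joins. -/
def JoinClosed {L : Type u} [Lattice L] [OrderBot L] (J : Set L) : Prop :=
  ⊥ ∈ J ∧ ∀ x ∈ J, ∀ y ∈ J, x ⊔ y ∈ J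

/-- `ht` is strictly monotone on the members `z` of `J` with `Freq c z`. -/
def HT {L : Type u} [Preorder L] (J : Set L) (c : ℝ) (ht : L → ℕ) : Prop :=
  ∀ x ∈ J, ∀ y ∈ J, Freq c y → x < y → ht x < ht y

theorem JoinClosed.sup_mem {L : Type u} [Lattice L] [OrderBot L] {J : Set L} (hJ : JoinClosed J)
    (A : Finset L) (hA : ∀ a ∈ A, a ∈ J) : A.sup id ∈ J := by
  classical
  induction A using Finset.induction_on with
  | empty =>
    rw [Finset.sup_empty]
    exact hJ.1
  | insert a A _ ih =>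
    rw [Finset.sup_insert, id]
    exact hJ.2 _ (hA a (Finset.mem_insert_self a A)) _
      (ih fun b hb => hA b (Finset.mem_insert_of_mem hb))

/-- The greedy step for a down-set `D`: either `S` contains a `W` of size `k` all whose subsets with join
in `D` are at most as large as the height of their join, or `S` is covered by `2 ^ k` members of `J`
in `D`. -/
theorem greedy {L : Type u} [Lattice L] [BoundedOrder L] [Fintype L] (J : Set L) (hJ : JoinClosed J)
    (ht : L → ℕ) (D : L → Prop) (hD : ∀ x y, y ≤ x → D x → D y)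
    (hht : ∀ x ∈ J, ∀ y ∈ J, D y → x < y → ht x < ht y) (S : Set L) (hSJ : S ⊆ J)
    (hS : ∀ s ∈ S, D s) (k : ℕ) :
    (∃ W : Finset L, W.card = k ∧ (∀ s ∈ W, s ∈ S) ∧
      ∀ A ⊆ W, D (A.sup id) → A.card ≤ ht (A.sup id)) ∨
    ∃ V : Finset L, V.card ≤ 2 ^ k ∧ (∀ v ∈ V, D v ∧ v ∈ J) ∧ ∀ s ∈ S, ∃ v ∈ V, s ≤ v := by
  classical
  induction k with
  | zero =>
    left
    refine ⟨∅, rfl, by simp, fun A hA _ => ?_⟩
    rw [Finset.subset_empty.1 hA]
    simp
  | succ k ih =>
    rcases ih with ⟨W, hWc, hWS, hG⟩ | ⟨V, hV, hVw, hVS⟩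
    swap
    · right
      exact ⟨V, hV.trans (Nat.pow_le_pow_right (by norm_num) (Nat.le_succ k)), hVw, hVS⟩
    obtain ⟨V, hVdef⟩ : ∃ V : Finset L, V = (W.powerset.image fun A => A.sup id).filter
      (fun v => D v) := ⟨_, rfl⟩
    by_cases hcov : ∀ s ∈ S, ∃ v ∈ V, s ≤ v
    · right
      refine ⟨V, ?_, fun v hv => ?_, hcov⟩
      · rw [hVdef]
        refine (Finset.card_filter_le _ _).trans (Finset.card_image_le.trans ?_)
        rw [Finset.card_powerset, hWc]
        exact Nat.pow_le_pow_right (by norm_num) (Nat.le_succ k)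
      · rw [hVdef] at hv
        obtain ⟨hv1, hv2⟩ := Finset.mem_filter.1 hv
        refine ⟨hv2, ?_⟩
        obtain ⟨A, hA, rfl⟩ := Finset.mem_image.1 hv1
        exact hJ.sup_mem A fun a ha => hSJ (hWS a (Finset.mem_powerset.1 hA ha))
    · left
      push Not at hcov
      obtain ⟨x, hxS, hx⟩ := hcov
      have hx' : ∀ A ⊆ W, D (A.sup id) → ¬ x ≤ A.sup id := by
        intro A hA hAw
        refine hx _ ?_
        rw [hVdef]
        exact Finset.mem_filter.2 ⟨Finset.mem_image_of_mem _ (Finset.mem_powerset.2 hA), hAw⟩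
      have hxW : x ∉ W := by
        intro hmem
        refine hx' {x} (Finset.singleton_subset_iff.2 hmem) ?_ ?_
        · rw [Finset.sup_singleton, id]
          exact hS x hxS
        · rw [Finset.sup_singleton, id]
      refine ⟨insert x W, by rw [Finset.card_insert_of_notMem hxW, hWc], ?_, ?_⟩
      · intro s hs
        rcases Finset.mem_insert.1 hs with rfl | hs
        · exact hxS
        · exact hWS s hs
      · intro A hA hAw
        by_cases hxA : x ∈ A
        · have hsub : A.erase x ⊆ W := by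
            intro s hs
            rw [Finset.mem_erase] at hs
            exact (Finset.mem_insert.1 (hA hs.2)).resolve_left hs.1
          have hle : (A.erase x).sup id ≤ A.sup id := Finset.sup_mono (Finset.erase_subset _ _)
          have hlt : D ((A.erase x).sup id) := hD _ _ hle hAw
          have h1 := hG _ hsub hlt
          have h2 : (A.erase x).sup id < A.sup id := by
            refine lt_of_le_of_ne hle fun heq => hx' _ hsub hlt ?_
            rw [heq]
            exact Finset.le_sup (f := id) hxA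
          have hmem : ∀ a ∈ A, a ∈ J := by
            intro a ha
            rcases Finset.mem_insert.1 (hA ha) with rfl | ha
            · exact hSJ hxS
            · exact hSJ (hWS a ha)
          have h3 := hht _ (hJ.sup_mem _ fun a ha => hmem a (Finset.mem_of_mem_erase ha)) _
            (hJ.sup_mem A hmem) hAw h2
          rw [Finset.card_erase_of_mem hxA] at h1
          have h4 : 0 < A.card := Finset.card_pos.2 ⟨x, hxA⟩
          omega
        · exact hG A (fun s hs => (Finset.mem_insert.1 (hA hs)).resolve_left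
            (fun h => hxA (h ▸ hs))) hAw

theorem card_up {L : Type u} [Lattice L] [Fintype L] [DecidableLE L] (s : L) :
    (Nat.card {x : L // s ≤ x} : ℝ) = ((Finset.univ.filter fun x : L => s ≤ x).card : ℝ) := by
  rw [Nat.card_eq_fintype_card, Fintype.card_subtype]

/-- A `W` as in `greedy` is short if its members lie below nearly half of the elements and `w` does not. -/
theorem greedy_short {L : Type u} [Lattice L] [BoundedOrder L] [Fintype L] (J : Set L)
    (hJ : JoinClosed J) (c : ℝ) (ht : L → ℕ) (hht : HT J c ht) (w : L) (hwJ : w ∈ J)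
    (hwc : Freq c w) (W : Finset L) (hWJ : ∀ s ∈ W, s ∈ J) (hW : ∀ s ∈ W, s ≤ w)
    (hG : ∀ A ⊆ W, A.sup id < w → A.card ≤ ht (A.sup id)) (e : ℝ)
    (hWn : ∀ s ∈ W, Near (e / 2) s) (hw : ¬ Near e w) (h : ℕ) (hh : ht w ≤ h + 1) :
    (W.card : ℝ) * (e / 2) ≤ h := by
  classical
  have hN : (0 : ℝ) < (Nat.card L : ℝ) := by
    rw [Nat.card_eq_fintype_card]
    exact_mod_cast Fintype.card_pos
  -- a point which is not above `w` is above at most `h` members of `W`
  have hpt : ∀ x : L, ((W.filter fun s => s ≤ x).card : ℝ) ≤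
      (if w ≤ x then (W.card : ℝ) else 0) + h := by
    intro x
    split_ifs with hx
    · have h1 : ((W.filter fun s => s ≤ x).card : ℝ) ≤ W.card :=
        Nat.cast_le.2 (Finset.card_filter_le _ _)
      have h2 : (0 : ℝ) ≤ h := Nat.cast_nonneg _
      linarith
    · have hsup : (W.filter fun s => s ≤ x).sup id ≤ x :=
        Finset.sup_le fun s hs => (Finset.mem_filter.1 hs).2
      have hsupw : (W.filter fun s => s ≤ x).sup id ≤ w :=
        Finset.sup_le fun s hs => hW s (Finset.mem_filter.1 hs).1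
      have hlt : (W.filter fun s => s ≤ x).sup id < w := by
        refine lt_of_le_of_ne hsupw fun heq => hx ?_
        rw [← heq]
        exact hsup
      have h1 := hG _ (Finset.filter_subset _ _) hlt
      have h2 := hht _ (hJ.sup_mem _ fun a ha => hWJ a (Finset.mem_filter.1 ha).1) _ hwJ hwc hlt
      rw [zero_add]
      exact Nat.cast_le.2 (by omega)
  have hdouble : ∑ s ∈ W, ((Finset.univ.filter fun x : L => s ≤ x).card : ℝ) =
      ∑ x : L, ((W.filter fun s => s ≤ x).card : ℝ) := by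
    exact_mod_cast Finset.sum_card_bipartiteAbove_eq_sum_card_bipartiteBelow
      (fun s x : L => s ≤ x)
  have hlow : (W.card : ℝ) * ((1 / 2 - e / 2) * (Nat.card L : ℝ)) ≤
      ∑ s ∈ W, ((Finset.univ.filter fun x : L => s ≤ x).card : ℝ) := by
    rw [← nsmul_eq_mul]
    refine Finset.card_nsmul_le_sum _ _ _ fun s hs => ?_
    rw [← card_up]
    exact hWn s hs
  have hhigh : ∑ x : L, ((W.filter fun s => s ≤ x).card : ℝ) ≤
      (W.card : ℝ) * (Nat.card {x : L // w ≤ x} : ℝ) + h * (Nat.card L : ℝ) := by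
    refine (Finset.sum_le_sum fun x _ => hpt x).trans (le_of_eq ?_)
    rw [Finset.sum_add_distrib, Finset.sum_const, Finset.card_univ, nsmul_eq_mul,
      ← Finset.sum_filter, Finset.sum_const, nsmul_eq_mul, card_up w, Nat.card_eq_fintype_card]
    ring
  have hw' : (Nat.card {x : L // w ≤ x} : ℝ) < (1 / 2 - e) * (Nat.card L : ℝ) := by
    unfold Near at hw
    exact not_le.1 hw
  rw [hdouble] at hlow
  have h1 := hlow.trans hhigh
  have h2 : (W.card : ℝ) * (Nat.card {x : L // w ≤ x} : ℝ) ≤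
      (W.card : ℝ) * ((1 / 2 - e) * (Nat.card L : ℝ)) :=
    mul_le_mul_of_nonneg_left hw'.le (Nat.cast_nonneg _)
  have h3 : ((W.card : ℝ) * (e / 2)) * (Nat.card L : ℝ) ≤ h * (Nat.card L : ℝ) := by
    nlinarith
  exact le_of_mul_le_mul_right h3 hN

/-- If all joins of `n + 1` members of `W` are rare, then `W` is small. -/
theorem rare_joins {L : Type u} [Lattice L] [BoundedOrder L] [Fintype L] (n : ℕ) (c δ : ℝ)
    (hc : 0 ≤ c) (W : Finset L) (hWn : ∀ s ∈ W, Near δ s)
    (hrare : ∀ A ⊆ W, A.card = n + 1 → ¬ Freq c (A.sup id))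
    (hpos : 0 ≤ (W.card : ℝ) * (1 / 2 - δ) - n) :
    ((W.card : ℝ) * (1 / 2 - δ) - n) ^ (n + 1) ≤ c * (W.card : ℝ) ^ (n + 1) := by
  classical
  have hN : (0 : ℝ) < (Fintype.card L : ℝ) := by exact_mod_cast Fintype.card_pos
  obtain ⟨d, hd⟩ : ∃ d : L → ℕ, ∀ x, d x = (W.filter fun s => s ≤ x).card := ⟨_, fun _ => rfl⟩
  have hdouble : ∑ s ∈ W, ((Finset.univ.filter fun x : L => s ≤ x).card : ℝ) =
      ∑ x : L, (d x : ℝ) := by
    simp only [hd]
    exact_mod_cast Finset.sum_card_bipartiteAbove_eq_sum_card_bipartiteBelow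
      (fun s x : L => s ≤ x)
  have hlow : (W.card : ℝ) * ((1 / 2 - δ) * (Fintype.card L : ℝ)) ≤ ∑ x : L, (d x : ℝ) := by
    rw [← hdouble, ← nsmul_eq_mul]
    refine Finset.card_nsmul_le_sum _ _ _ fun s hs => ?_
    have h1 := hWn s hs
    unfold Near at h1
    rw [card_up, Nat.card_eq_fintype_card] at h1
    exact h1
  -- the lower bound
  have hA : (Fintype.card L : ℝ) * ((W.card : ℝ) * (1 / 2 - δ) - n) ≤
      ∑ x : L, ((d x - n : ℕ) : ℝ) := by
    have h1 : ∀ x : L, (d x : ℝ) - n ≤ ((d x - n : ℕ) : ℝ) := by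
      intro x
      rcases Nat.le_total n (d x) with h | h
      · rw [Nat.cast_sub h]
      · have h2 : (d x : ℝ) ≤ n := Nat.cast_le.2 h
        have h3 : (0 : ℝ) ≤ ((d x - n : ℕ) : ℝ) := Nat.cast_nonneg _
        linarith
    have h2 := Finset.sum_le_sum fun x (_ : x ∈ (Finset.univ : Finset L)) => h1 x
    rw [Finset.sum_sub_distrib, Finset.sum_const, Finset.card_univ, nsmul_eq_mul] at h2
    linarith
  have hB := pow_sum_div_card_le_sum_pow (s := (Finset.univ : Finset L))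
    (f := fun x => ((d x - n : ℕ) : ℝ)) (fun x _ => Nat.cast_nonneg _) n
  rw [Finset.card_univ] at hB
  have hC : ∑ x : L, ((d x - n : ℕ) : ℝ) ^ (n + 1) ≤
      ((n + 1).factorial : ℝ) * ∑ x : L, ((d x).choose (n + 1) : ℝ) := by
    rw [Finset.mul_sum]
    refine Finset.sum_le_sum fun x _ => ?_
    have h1 := Nat.pow_sub_le_descFactorial (d x) (n + 1)
    rw [Nat.descFactorial_eq_factorial_mul_choose, show d x + 1 - (n + 1) = d x - n by omega] at h1
    exact_mod_cast h1
  have hset : ∀ x : L, Finset.powersetCard (n + 1) (W.filter fun s => s ≤ x) =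
      (Finset.powersetCard (n + 1) W).filter fun A => A.sup id ≤ x := by
    intro x
    ext A
    rw [Finset.mem_powersetCard, Finset.mem_filter, Finset.mem_powersetCard]
    constructor
    · rintro ⟨h1, h2⟩
      exact ⟨⟨fun a ha => (Finset.mem_filter.1 (h1 ha)).1, h2⟩,
        Finset.sup_le fun a ha => (Finset.mem_filter.1 (h1 ha)).2⟩
    · rintro ⟨⟨h1, h2⟩, h3⟩
      exact ⟨fun a ha => Finset.mem_filter.2 ⟨h1 ha, (Finset.le_sup (f := id) ha).trans h3⟩, h2⟩
  have hE : ∑ x : L, ((d x).choose (n + 1) : ℝ) =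
      ∑ A ∈ Finset.powersetCard (n + 1) W,
        ((Finset.univ.filter fun x : L => A.sup id ≤ x).card : ℝ) := by
    have h1 : ∀ x : L, (d x).choose (n + 1) =
        ((Finset.powersetCard (n + 1) W).filter fun A => A.sup id ≤ x).card := by
      intro x
      rw [← hset, Finset.card_powersetCard, hd]
    simp only [h1]
    exact_mod_cast (Finset.sum_card_bipartiteAbove_eq_sum_card_bipartiteBelow
      (fun (A : Finset L) (x : L) => A.sup id ≤ x)).symm
  have hF : ∑ A ∈ Finset.powersetCard (n + 1) W,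
      ((Finset.univ.filter fun x : L => A.sup id ≤ x).card : ℝ) ≤
      (W.card.choose (n + 1) : ℝ) * (c * (Fintype.card L : ℝ)) := by
    rw [← Finset.card_powersetCard, ← nsmul_eq_mul]
    refine Finset.sum_le_card_nsmul _ _ _ fun A hA => ?_
    obtain ⟨h1, h2⟩ := Finset.mem_powersetCard.1 hA
    have h3 := hrare A h1 h2
    unfold Freq at h3
    rw [card_up, Nat.card_eq_fintype_card] at h3
    exact (not_le.1 h3).le
  have hG : ((n + 1).factorial : ℝ) * ((W.card.choose (n + 1) : ℝ) *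
      (c * (Fintype.card L : ℝ))) ≤ (W.card : ℝ) ^ (n + 1) * (c * (Fintype.card L : ℝ)) := by
    rw [← mul_assoc]
    refine mul_le_mul_of_nonneg_right ?_ (mul_nonneg hc hN.le)
    have h1 := Nat.descFactorial_le_pow W.card (n + 1)
    rw [Nat.descFactorial_eq_factorial_mul_choose] at h1
    exact_mod_cast h1
  have hH : ((Fintype.card L : ℝ) * ((W.card : ℝ) * (1 / 2 - δ) - n)) ^ (n + 1) /
      (Fintype.card L : ℝ) ^ n ≤ (W.card : ℝ) ^ (n + 1) * (c * (Fintype.card L : ℝ)) := by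
    refine (div_le_div_of_nonneg_right (pow_le_pow_left₀ (mul_nonneg hN.le hpos) hA (n + 1))
      (pow_nonneg hN.le n)).trans (hB.trans (hC.trans ?_))
    rw [hE]
    exact (mul_le_mul_of_nonneg_left hF (Nat.cast_nonneg _)).trans hG
  have hI : ((Fintype.card L : ℝ) * ((W.card : ℝ) * (1 / 2 - δ) - n)) ^ (n + 1) /
      (Fintype.card L : ℝ) ^ n =
      (Fintype.card L : ℝ) * ((W.card : ℝ) * (1 / 2 - δ) - n) ^ (n + 1) := by
    rw [mul_pow, pow_succ (Fintype.card L : ℝ) n]
    have := (pow_pos hN n).ne'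
    field_simp
  rw [hI] at hH
  refine le_of_mul_le_mul_left ?_ hN
  linarith

/-- A positive lower bound for finitely many positive numbers. -/
theorem exists_lower (F : ℕ → ℝ) (hF : ∀ r, 0 < F r) (R : ℕ) : ∃ e : ℝ, 0 < e ∧
    ∀ r ≤ R, e ≤ F r := by
  induction R with
  | zero => exact ⟨F 0, hF 0, fun r hr => by rw [Nat.le_zero.1 hr]⟩
  | succ R ih =>
    obtain ⟨e, he, h⟩ := ih
    refine ⟨min e (F (R + 1)), lt_min he (hF _), fun r hr => ?_⟩
    rcases Nat.lt_or_ge r (R + 1) with h1 | h1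
    · exact (min_le_left _ _).trans (h r (by omega))
    · rw [show r = R + 1 by omega]
      exact min_le_right _ _

/-- An upper bound for finitely many numbers. -/
theorem exists_upper (F : ℕ → ℕ) (R : ℕ) : ∃ e : ℕ, ∀ r ≤ R, F r ≤ e := by
  refine ⟨(Finset.range (R + 1)).sup F, fun r hr => ?_⟩
  exact Finset.le_sup (f := F) (Finset.mem_range.2 (by omega))

/-- A set in an interval `[0, w]` with `ht w ≤ h`. -/
def CovOne (c : ℝ) (h : ℕ) : Prop :=
  ∀ F : ℕ → ℝ, (∀ r, 0 < F r) → ∃ (R : ℕ) (δ : ℝ), 0 < δ ∧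
    ∀ (L : Type u) [Lattice L] [BoundedOrder L] [Fintype L] (J : Set L), JoinClosed J →
      ∀ ht : L → ℕ, HT J c ht →
      ∀ w ∈ J, Freq c w → ht w ≤ h → ∀ S : Set L, S ⊆ J → (∀ s ∈ S, s ≤ w) →
        (∀ s ∈ S, Near δ s) →
        ∃ r ≤ R, ∃ Z : Finset L, Z.card ≤ r ∧ (∀ z ∈ Z, Near (F r) z) ∧ ∀ s ∈ S, ∃ z ∈ Z, s ≤ z

/-- A set in a union of `B` intervals `[0, v]` with `ht v ≤ h`. -/
def CovMany (c : ℝ) (h B : ℕ) : Prop :=
  ∀ F : ℕ → ℝ, (∀ r, 0 < F r) → ∃ (R : ℕ) (δ : ℝ), 0 < δ ∧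
    ∀ (L : Type u) [Lattice L] [BoundedOrder L] [Fintype L] (J : Set L), JoinClosed J →
      ∀ ht : L → ℕ, HT J c ht →
      ∀ V : Finset L, V.card ≤ B → (∀ v ∈ V, v ∈ J ∧ Freq c v ∧ ht v ≤ h) → ∀ S : Set L, S ⊆ J →
        (∀ s ∈ S, ∃ v ∈ V, s ≤ v) → (∀ s ∈ S, Near δ s) →
        ∃ r ≤ R, ∃ Z : Finset L, Z.card ≤ r ∧ (∀ z ∈ Z, Near (F r) z) ∧ ∀ s ∈ S, ∃ z ∈ Z, s ≤ z

theorem covMany_of_covOne {c : ℝ} {h : ℕ} (H : CovOne.{u} c h) (B : ℕ) :
    CovMany.{u} c h B := by
  induction B with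
  | zero =>
    intro F hF
    refine ⟨0, 1, one_pos, ?_⟩
    intro L _ _ _ J hJ ht hht V hV hVh S hSJ hS hSn
    refine ⟨0, le_rfl, ∅, by simp, by simp, fun s hs => ?_⟩
    obtain ⟨v, hv, _⟩ := hS s hs
    rw [Finset.card_eq_zero.1 (Nat.le_zero.1 hV)] at hv
    exact absurd hv (by simp)
  | succ B ih =>
    intro F hF
    have h1 : ∀ r1 : ℕ, ∃ (R : ℕ) (δ : ℝ), 0 < δ ∧
      ∀ (L : Type u) [Lattice L] [BoundedOrder L] [Fintype L] (J : Set L), JoinClosed J →
        ∀ ht : L → ℕ, HT J c ht →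
        ∀ V : Finset L, V.card ≤ B → (∀ v ∈ V, v ∈ J ∧ Freq c v ∧ ht v ≤ h) → ∀ S : Set L, S ⊆ J →
          (∀ s ∈ S, ∃ v ∈ V, s ≤ v) → (∀ s ∈ S, Near δ s) →
          ∃ r ≤ R, ∃ Z : Finset L, Z.card ≤ r ∧ (∀ z ∈ Z, Near (F (r1 + r)) z) ∧
            ∀ s ∈ S, ∃ z ∈ Z, s ≤ z :=
      fun r1 => ih (fun r => F (r1 + r)) (fun r => hF _)
    choose R' δ' hδ' h1 using h1
    have h2 : ∀ r1 : ℕ, ∃ e : ℝ, 0 < e ∧ ∀ s ≤ R' r1, e ≤ F (r1 + s) := fun r1 =>
      exists_lower (fun s => F (r1 + s)) (fun s => hF _) (R' r1)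
    choose F1 hF1 hF1' using h2
    obtain ⟨R1, δ1, hδ1, h3⟩ := H F1 hF1
    obtain ⟨δ2, hδ2, hδ2'⟩ := exists_lower δ' hδ' R1
    obtain ⟨R2, hR2⟩ := exists_upper R' R1
    refine ⟨R1 + R2, min δ1 δ2, lt_min hδ1 hδ2, ?_⟩
    intro L _ _ _ J hJ ht hht V hV hVh S hSJ hS hSn
    classical
    rcases V.eq_empty_or_nonempty with rfl | ⟨v0, hv0⟩
    · refine ⟨0, Nat.zero_le _, ∅, by simp, by simp, fun s hs => ?_⟩
      obtain ⟨v, hv, _⟩ := hS s hs
      exact absurd hv (by simp)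
    obtain ⟨r1, hr1, Z1, hZ1, hZ1n, hZ1c⟩ := h3 L J hJ ht hht v0 (hVh v0 hv0).1 (hVh v0 hv0).2.1
      (hVh v0 hv0).2.2 {s | s ∈ S ∧ s ≤ v0} (fun s hs => hSJ hs.1)
      (fun s hs => hs.2) (fun s hs => (hSn s hs.1).mono (min_le_left _ _))
    obtain ⟨r2, hr2, Z2, hZ2, hZ2n, hZ2c⟩ := h1 r1 L J hJ ht hht (V.erase v0)
      (by rw [Finset.card_erase_of_mem hv0]; omega)
      (fun v hv => hVh v (Finset.mem_of_mem_erase hv))
      {s | s ∈ S ∧ ∃ v ∈ V.erase v0, s ≤ v} (fun s hs => hSJ hs.1) (fun s hs => hs.2)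
      (fun s hs => (hSn s hs.1).mono ((min_le_right _ _).trans (hδ2' r1 hr1)))
    refine ⟨r1 + r2, Nat.add_le_add hr1 (hr2.trans (hR2 r1 hr1)), Z1 ∪ Z2,
      (Finset.card_union_le _ _).trans (Nat.add_le_add hZ1 hZ2), ?_, ?_⟩
    · intro z hz
      rcases Finset.mem_union.1 hz with hz | hz
      · exact (hZ1n z hz).mono (hF1' r1 r2 hr2)
      · exact hZ2n z hz
    · intro s hs
      obtain ⟨v, hv, hsv⟩ := hS s hs
      by_cases hvv : v = v0
      · obtain ⟨z, hz, hsz⟩ := hZ1c s ⟨hs, hvv ▸ hsv⟩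
        exact ⟨z, Finset.mem_union_left _ hz, hsz⟩
      · obtain ⟨z, hz, hsz⟩ := hZ2c s ⟨hs, v, Finset.mem_erase.2 ⟨hvv, hv⟩, hsv⟩
        exact ⟨z, Finset.mem_union_right _ hz, hsz⟩

theorem covOne (c : ℝ) (h : ℕ) : CovOne.{u} c h := by
  induction h with
  | zero =>
    intro F hF
    refine ⟨1, F 1, hF 1, ?_⟩
    intro L _ _ _ J hJ ht hht w hwJ hwc hw S hSJ hS hSn
    by_cases hwS : w ∈ S
    · refine ⟨1, le_rfl, {w}, by simp, ?_, fun s hs => ⟨w, by simp, hS s hs⟩⟩
      intro z hz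
      rw [Finset.mem_singleton.1 hz]
      exact hSn w hwS
    · refine ⟨0, Nat.zero_le _, ∅, by simp, by simp, fun s hs => ?_⟩
      exfalso
      have h1 : s < w := lt_of_le_of_ne (hS s hs) (by rintro rfl; exact hwS hs)
      have h2 := hht s (hSJ hs) w hwJ hwc h1
      omega
  | succ h ih =>
    intro F hF
    obtain ⟨m, hm⟩ := exists_nat_gt ((h : ℝ) / (F 1 / 2))
    obtain ⟨R, δ, hδ, H⟩ := covMany_of_covOne ih (2 ^ m) F hF
    refine ⟨max R 1, min δ (F 1 / 2), lt_min hδ (half_pos (hF 1)), ?_⟩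
    intro L _ _ _ J hJ ht hht w hwJ hwc hw S hSJ hS hSn
    classical
    by_cases hwn : Near (F 1) w
    · refine ⟨1, le_max_right _ _, {w}, by simp, ?_, fun s hs => ⟨w, by simp, hS s hs⟩⟩
      intro z hz
      rw [Finset.mem_singleton.1 hz]
      exact hwn
    have hwS : ∀ s ∈ S, s < w := by
      intro s hs
      refine lt_of_le_of_ne (hS s hs) ?_
      rintro rfl
      exact hwn ((hSn s hs).mono ((min_le_right _ _).trans (half_le_self (hF 1).le)))
    rcases greedy J hJ ht (fun v => v < w) (fun x y hyx hx => lt_of_le_of_lt hyx hx)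
      (fun x hx y hy hyw hxy => hht x hx y hy (hwc.anti hyw.le) hxy) S hSJ hwS m with
      ⟨W, hWc, hWS, hG⟩ | ⟨V, hV, hVw, hVS⟩
    · exfalso
      have h1 := greedy_short J hJ c ht hht w hwJ hwc W (fun s hs => hSJ (hWS s hs))
        (fun s hs => hS s (hWS s hs)) hG (F 1)
        (fun s hs => (hSn s (hWS s hs)).mono (min_le_right _ _)) hwn h hw
      rw [hWc] at h1
      rw [div_lt_iff₀ (half_pos (hF 1))] at hm
      linarith
    · obtain ⟨r, hr, Z, hZ, hZn, hZc⟩ := H L J hJ ht hht V hV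
        (fun v hv => by
          have h1 := hht v (hVw v hv).2 w hwJ hwc (hVw v hv).1
          exact ⟨(hVw v hv).2, hwc.anti (hVw v hv).1.le, by omega⟩) S hSJ hVS
        (fun s hs => (hSn s hs).mono (min_le_left _ _))
      exact ⟨r, hr.trans (le_max_left _ _), Z, hZ, hZn, hZc⟩

/-- The covering of all members of `J` which lie below nearly half of the elements. -/
theorem covTop (n : ℕ) (c : ℝ) (hc0 : 0 ≤ c) (hc : c < (1 / 2 : ℝ) ^ (n + 1)) (F : ℕ → ℝ)
    (hF : ∀ r, 0 < F r) : ∃ (R : ℕ) (δ : ℝ), 0 < δ ∧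
    ∀ (L : Type u) [Lattice L] [BoundedOrder L] [Fintype L] (J : Set L), JoinClosed J →
      ∀ ht : L → ℕ, HT J c ht → (∀ x ∈ J, Freq c x → ht x ≤ n) →
      ∀ S : Set L, S ⊆ J → (∀ s ∈ S, Near δ s) →
        ∃ r ≤ R, ∃ Z : Finset L, Z.card ≤ r ∧ (∀ z ∈ Z, Near (F r) z) ∧
          ∀ s ∈ S, ∃ z ∈ Z, s ≤ z := by
  -- a number `t < 1 / 2` with `c < t ^ (n + 1)`
  obtain ⟨t, ht0, ht2, htc⟩ : ∃ t : ℝ, 0 < t ∧ t < 1 / 2 ∧ c < t ^ (n + 1) := by
    have h1 : ∀ᶠ t : ℝ in nhds (1 / 2), c < t ^ (n + 1) :=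
      (continuous_pow (n + 1)).continuousAt.eventually (lt_mem_nhds hc)
    have h2 : ∀ᶠ t : ℝ in nhds (1 / 2), 0 < t := lt_mem_nhds (by norm_num)
    have h3 : ∀ᶠ t : ℝ in nhdsWithin (1 / 2) (Set.Iio (1 / 2)), c < t ^ (n + 1) ∧ 0 < t :=
      (h1.and h2).filter_mono nhdsWithin_le_nhds
    obtain ⟨t, h4, h5⟩ := (h3.and self_mem_nhdsWithin).exists
    exact ⟨t, h4.2, h5, h4.1⟩
  obtain ⟨e, he⟩ : ∃ e : ℝ, e = (1 / 2 - t) / 2 := ⟨_, rfl⟩
  have he0 : 0 < e := by rw [he]; linarith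
  obtain ⟨m, hm⟩ := exists_nat_gt (max ((n : ℝ) / e) (n + 1))
  have hm1 : (n : ℝ) < m * e := by
    have h1 := lt_of_le_of_lt (le_max_left _ _) hm
    rwa [div_lt_iff₀ he0] at h1
  have hm2 : (n : ℝ) + 1 < m := lt_of_le_of_lt (le_max_right _ _) hm
  have hm0 : (0 : ℝ) < m := by
    have : (0 : ℝ) ≤ n := Nat.cast_nonneg _
    linarith
  obtain ⟨R, δ, hδ, H⟩ := covMany_of_covOne (covOne.{u} c n) (2 ^ m) F hF
  refine ⟨R, min δ e, lt_min hδ he0, ?_⟩
  intro L _ _ _ J hJ ht hht hn S hSJ hSn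
  classical
  have hle2 : (1 / 2 : ℝ) ^ (n + 1) ≤ 1 / 2 := by
    have := pow_le_pow_of_le_one (show (0 : ℝ) ≤ 1 / 2 by norm_num)
      (show (1 / 2 : ℝ) ≤ 1 by norm_num) (show 1 ≤ n + 1 by omega)
    rwa [pow_one] at this
  have htle : t ^ (n + 1) ≤ t := by
    have := pow_le_pow_of_le_one ht0.le (show t ≤ 1 by linarith) (show 1 ≤ n + 1 by omega)
    rwa [pow_one] at this
  have hfreq : ∀ s ∈ S, Freq c s := by
    intro s hs
    refine ((hSn s hs).mono (min_le_right _ _)).freq ?_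
    rw [he]
    linarith
  rcases greedy J hJ ht (fun v => Freq c v) (fun x y hyx hx => hx.anti hyx)
    (fun x hx y hy hyc hxy => hht x hx y hy hyc hxy) S hSJ hfreq m with
    ⟨W, hWc, hWS, hG⟩ | ⟨V, hV, hVw, hVS⟩
  · exfalso
    have hbase : (t : ℝ) * m ≤ (m : ℝ) * (1 / 2 - e) - n := by
      have : (m : ℝ) * (1 / 2 - e) = t * m + m * e := by rw [he]; ring
      rw [this]
      linarith
    have h1 := rare_joins n c e hc0 W
      (fun s hs => (hSn s (hWS s hs)).mono (min_le_right _ _))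
      (fun A hA hAc hAf => by
        have h2 := hG A hA hAf
        have h3 := hn _ (hJ.sup_mem A fun a ha => hSJ (hWS a (hA ha))) hAf
        omega)
      (by
        rw [hWc]
        exact (mul_nonneg ht0.le hm0.le).trans hbase)
    rw [hWc] at h1
    have h2 : (t * m) ^ (n + 1) ≤ c * (m : ℝ) ^ (n + 1) :=
      (pow_le_pow_left₀ (mul_nonneg ht0.le hm0.le) hbase (n + 1)).trans h1
    rw [mul_pow] at h2
    have h3 := le_of_mul_le_mul_right h2 (pow_pos hm0 (n + 1))
    linarith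
  · obtain ⟨r, hr, Z, hZ, hZn, hZc⟩ := H L J hJ ht hht V hV
      (fun v hv => ⟨(hVw v hv).2, (hVw v hv).1, hn v (hVw v hv).2 (hVw v hv).1⟩) S hSJ hVS
      (fun s hs => (hSn s hs).mono (min_le_left _ _))
    exact ⟨r, hr, Z, hZ, hZn, hZc⟩

end Pool.Agent.H9.FM.CG
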