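import Mathlib
import Pool.Agent.H72.IG.Ent

/-!
# Two steps of the entropy method for meets of two random elements, general coordinates

`E f = ∑ z, log |fibre of f through z|` (counting form of minus the entropy).
-/

set_option autoImplicit false

namespace Pool.Agent.H9.FM.EntG

open Finset Pool.Agent.H72.IG

/-- unnormalised negative entropy -/
noncomputable def E {Z κ : Type*} [Fintype Z] (f : Z → κ) : ℝ := lk (fun _ => (1 : ℝ)) f

open Classical in
theorem W_one {Z κ : Type*} [Fintype Z] (f : Z → κ) (z : Z) :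
    W (fun _ => (1 : ℝ)) f z = (#{a : Z | f a = f z} : ℝ) := by
  unfold W
  rw [← sum_filter, sum_const, nsmul_eq_mul, mul_one]

open Classical in
theorem E_def {Z κ : Type*} [Fintype Z] (f : Z → κ) :
    E f = ∑ z, Real.log (#{a : Z | f a = f z} : ℝ) := by
  unfold E lk
  refine sum_congr rfl fun z _ => ?_
  rw [one_mul, W_one]

theorem W_prod {Z Z' κ κ' : Type*} [Fintype Z] [Fintype Z'] (K : Z → κ) (K' : Z' → κ')
    (p : Z × Z') :
    W (fun _ => (1 : ℝ)) (fun p : Z × Z' => (K p.1, K' p.2)) p =
      W (fun _ => (1 : ℝ)) K p.1 * W (fun _ => (1 : ℝ)) K' p.2 := by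
  classical
  unfold W
  rw [Fintype.sum_prod_type, sum_mul_sum]
  refine sum_congr rfl fun a _ => sum_congr rfl fun b _ => ?_
  by_cases h1 : K a = K p.1 <;> by_cases h2 : K' b = K' p.2 <;> simp [h1, h2]

theorem W_pos1 {Z κ : Type*} [Fintype Z] (K : Z → κ) (z : Z) :
    0 < W (fun _ => (1 : ℝ)) K z :=
  W_pos (fun _ => zero_le_one) K one_ne_zero

theorem E_submod {Z κ κ' ι : Type*} [Fintype Z] (K : Z → κ) (K' : Z → κ') (J : Z → ι)
    (h : ∀ a b, K' a = K' b → K a = K b) :
    E K' - E (fun z => (K' z, J z)) ≤ E K - E (fun z => (K z, J z)) :=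
  lk_submod (fun _ => zero_le_one) K K' J h

theorem E_eq {Z κ ι : Type*} [Fintype Z] {K : Z → κ} {J : Z → ι}
    (h : ∀ a b, J a = J b ↔ K a = K b) : E J = E K :=
  lk_eq_of_iff h

theorem E_le {Z κ ι : Type*} [Fintype Z] {K : Z → κ} {J : Z → ι}
    (h : ∀ a b, J a = J b → K a = K b) : E J ≤ E K :=
  lk_le_of_refines (fun _ => zero_le_one) h

/-- Gibbs' inequality -/
theorem gibbs {Z β : Type*} [Fintype Z] [DecidableEq β] (f : Z → β) (T : Finset β)
    (hT : ∀ z, f z ∈ T) (ρ : β → ℝ) (hρ : ∀ v ∈ T, 0 < ρ v) (h1 : ∑ v ∈ T, ρ v ≤ 1) :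
    ∑ z, Real.log (ρ (f z)) + Fintype.card Z * Real.log (Fintype.card Z) ≤ E f := by
  classical
  rcases isEmpty_or_nonempty Z with hZ | hZ
  · simp [E_def]
  have hN : (0 : ℝ) < Fintype.card Z := by exact_mod_cast Fintype.card_pos
  set c : β → ℝ := fun v => ((#{a : Z | f a = v} : ℕ) : ℝ) with hc
  have hcpos : ∀ z, 0 < c (f z) := by
    intro z
    simp only [hc]
    exact_mod_cast Finset.card_pos.2 ⟨z, by simp⟩
  have hpt : ∀ z, Real.log (ρ (f z)) + Real.log (Fintype.card Z) - Real.log (c (f z)) ≤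
      Fintype.card Z * (ρ (f z) / c (f z)) - 1 := by
    intro z
    have hr := hρ (f z) (hT z)
    have h2 : 0 < Fintype.card Z * (ρ (f z) / c (f z)) := mul_pos hN (div_pos hr (hcpos z))
    have h3 := Real.log_le_sub_one_of_pos h2
    rw [Real.log_mul hN.ne' (div_pos hr (hcpos z)).ne', Real.log_div hr.ne' (hcpos z).ne'] at h3
    linarith
  have hsum := sum_le_sum fun z (_ : z ∈ (univ : Finset Z)) => hpt z
  have e1 : ∑ z, ρ (f z) / c (f z) ≤ 1 := by
    have : ∑ z, ρ (f z) / c (f z) = ∑ v ∈ T, ∑ z ∈ univ.filter (fun z => f z = v),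
        ρ (f z) / c (f z) := (sum_fiberwise_of_maps_to (fun z _ => hT z) _).symm
    rw [this]
    refine le_trans (sum_le_sum fun v hv => ?_) h1
    have : ∑ z ∈ univ.filter (fun z => f z = v), ρ (f z) / c (f z) =
        ∑ z ∈ univ.filter (fun z => f z = v), ρ v / c v := by
      refine sum_congr rfl fun z hz => ?_
      rw [(mem_filter.1 hz).2]
    rw [this, sum_const, nsmul_eq_mul]
    have h5 : (0 : ℝ) ≤ c v := by simp only [hc]; positivity
    rcases h5.eq_or_lt with h6 | h6
    · have : ((#{a : Z | f a = v} : ℕ) : ℝ) = 0 := h6.symm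
      rw [this, zero_mul]
      exact (hρ v hv).le
    · refine le_of_eq ?_
      have h7 : ((#{a : Z | f a = v} : ℕ) : ℝ) = c v := rfl
      rw [h7]
      field_simp
  rw [sum_sub_distrib, sum_add_distrib, sum_const, sum_sub_distrib, sum_const, card_univ,
    nsmul_eq_mul, nsmul_eq_mul, mul_one, ← mul_sum] at hsum
  have hE : E f = ∑ z, Real.log (c (f z)) := by
    rw [E_def]
    refine sum_congr rfl fun z _ => ?_
    simp only [hc]
    congr!
  rw [hE]
  have := mul_le_mul_of_nonneg_left e1 hN.le
  linarith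

/-- a function with at most `K` values -/
theorem count {Z β : Type*} [Fintype Z] [Nonempty Z] [DecidableEq β] (f : Z → β) (K : ℝ)
    (hK : ((univ.image f).card : ℝ) ≤ K) :
    Fintype.card Z * (Real.log (Fintype.card Z) - Real.log K) ≤ E f := by
  have hpos : (0 : ℝ) < (univ.image f).card := by
    exact_mod_cast (univ_nonempty.image f).card_pos
  have hKpos : 0 < K := lt_of_lt_of_le hpos hK
  have h := gibbs f (univ.image f) (fun z => mem_image_of_mem f (mem_univ z)) (fun _ => 1 / K)
    (fun v _ => by positivity) (by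
      rw [sum_const, nsmul_eq_mul, mul_one_div]
      exact (div_le_one hKpos).2 hK)
  rw [sum_const, card_univ, nsmul_eq_mul, one_div, Real.log_inv] at h
  linarith

/-- entropy and an event: if `f z ∈ S` with probability at least a quarter, `S` small, then the entropy
of `f` is small. -/
theorem event {Z β : Type*} [Fintype Z] [Fintype β] [DecidableEq β] [Nonempty Z] (f : Z → β)
    (S : Finset β)
    (h : (Fintype.card Z : ℝ) / 4 ≤ ((univ.filter (fun z => f z ∈ S)).card : ℝ)) :
    Fintype.card Z * (Real.log (Fintype.card Z) - Real.log 2 - Real.log (Fintype.card β) +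
      (1 / 4) * Real.log (Fintype.card β / S.card)) ≤ E f := by
  have hZ : (0 : ℝ) < Fintype.card Z := by exact_mod_cast Fintype.card_pos
  have hne : (univ.filter (fun z => f z ∈ S)).Nonempty := by
    rw [← Finset.card_pos]
    have : (0 : ℝ) < ((univ.filter (fun z => f z ∈ S)).card : ℝ) := by linarith
    exact_mod_cast this
  obtain ⟨z0, hz0⟩ := hne
  have hS : (0 : ℝ) < S.card := by
    exact_mod_cast Finset.card_pos.2 ⟨f z0, (mem_filter.1 hz0).2⟩
  have hN : (0 : ℝ) < Fintype.card β := by
    exact_mod_cast Fintype.card_pos_iff.2 ⟨f z0⟩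
  have hSN : (S.card : ℝ) ≤ Fintype.card β := by exact_mod_cast S.card_le_univ
  set ρ : β → ℝ := fun v => 1 / (2 * (Fintype.card β : ℝ)) +
    (if v ∈ S then 1 / (2 * (S.card : ℝ)) else 0 : ℝ) with hρ
  have hρpos : ∀ v, 0 < ρ v := by
    intro v
    simp only [hρ]
    split_ifs <;> positivity
  have hρsum : ∑ v, ρ v ≤ 1 := by
    simp only [hρ]
    rw [sum_add_distrib, sum_const, card_univ, nsmul_eq_mul, ← sum_filter, sum_const,
      nsmul_eq_mul]
    have : (univ.filter (fun v => v ∈ S)) = S := by ext; simp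
    rw [this]
    refine le_of_eq ?_
    field_simp
    norm_num
  have hg := gibbs f univ (fun z => mem_univ _) ρ (fun v _ => hρpos v) hρsum
  refine le_trans ?_ hg
  have hlow : ∀ z, -Real.log (2 * Fintype.card β) +
      (if f z ∈ S then Real.log (Fintype.card β / S.card) else 0) ≤ Real.log (ρ (f z)) := by
    intro z
    split_ifs with hz
    · have e : -Real.log (2 * Fintype.card β) + Real.log (Fintype.card β / S.card) =
          Real.log (1 / (2 * S.card)) := by
        rw [Real.log_div hN.ne' hS.ne', one_div, Real.log_inv, Real.log_mul two_ne_zero hN.ne',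
          Real.log_mul two_ne_zero hS.ne']
        ring
      rw [e]
      refine Real.log_le_log (by positivity) ?_
      simp only [hρ, if_pos hz]
      have : (0 : ℝ) ≤ 1 / (2 * Fintype.card β) := by positivity
      linarith
    · rw [add_zero, ← Real.log_inv]
      refine Real.log_le_log (by positivity) ?_
      simp only [hρ, if_neg hz, add_zero, one_div]
      exact le_rfl
  have hs := sum_le_sum fun z (_ : z ∈ (univ : Finset Z)) => hlow z
  rw [sum_add_distrib, sum_const, card_univ, nsmul_eq_mul, ← sum_filter, sum_const,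
    nsmul_eq_mul, Real.log_mul two_ne_zero hN.ne'] at hs
  have hl0 : 0 ≤ Real.log (Fintype.card β / S.card) :=
    Real.log_nonneg ((one_le_div hS).2 hSN)
  have := mul_le_mul_of_nonneg_right h hl0
  linarith

variable {L κ α : Type*} [Lattice L] [Fintype L]

open Classical in
theorem loc (K : L → κ) (A : L → Prop) (hA : ∀ x y, K x = K y → (A x ↔ A y)) (c : L → α)
    (hc : ∀ x y, A y → c (x ⊓ y) = c x) (u : ℝ) (hu : u ≤ (#{y : L | A y} : ℝ)) :
    2 * u * (E K - E (fun x => (K x, c x))) ≤
      E (fun p : L × L => (K p.1, K p.2)) -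
        E (fun p : L × L => ((K p.1, K p.2), c (p.1 ⊓ p.2))) := by
  have hc' : ∀ x y, A x → c (x ⊓ y) = c y := fun x y hx => by rw [inf_comm]; exact hc y x hx
  set d : L → ℝ := fun x => Real.log (W (fun _ => (1 : ℝ)) K x) -
    Real.log (W (fun _ => (1 : ℝ)) (fun x => (K x, c x)) x) with hd
  have hd0 : ∀ x, 0 ≤ d x := by
    intro x
    have : W (fun _ => (1 : ℝ)) (fun x => (K x, c x)) x ≤ W (fun _ => (1 : ℝ)) K x :=
      W_le_of_refines (fun _ => zero_le_one) (fun a b hab => (Prod.mk.inj hab).1) x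
    have := Real.log_le_log (W_pos1 _ x) this
    simp only [hd]
    linarith
  have hd1 : ∀ x, A x → d x = 0 := by
    intro x hx
    simp only [hd]
    have : W (fun _ => (1 : ℝ)) (fun x => (K x, c x)) x = W (fun _ => (1 : ℝ)) K x := by
      unfold W
      refine sum_congr rfl fun a _ => ?_
      by_cases h1 : K a = K x
      · have h2 : A a := (hA a x h1).2 hx
        have h3 : c a = c x := by rw [← hc a x hx, hc' a x h2]
        simp [h1, h3]
      · simp [h1]
    rw [this, sub_self]
  have hE1 : E K - E (fun x => (K x, c x)) = ∑ x, d x := by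
    unfold E lk
    rw [← sum_sub_distrib]
    simp only [hd, one_mul]
  have hE2 : E (fun p : L × L => (K p.1, K p.2)) -
        E (fun p : L × L => ((K p.1, K p.2), c (p.1 ⊓ p.2))) =
      ∑ p : L × L, (Real.log (W (fun _ => (1 : ℝ)) (fun p : L × L => (K p.1, K p.2)) p) -
        Real.log (W (fun _ => (1 : ℝ))
          (fun p : L × L => ((K p.1, K p.2), c (p.1 ⊓ p.2))) p)) := by
    unfold E lk
    rw [← sum_sub_distrib]
    simp only [one_mul]
  have hloc : ∀ p : L × L, ((if A p.2 then d p.1 else 0) + (if A p.1 then d p.2 else 0)) ≤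
      (Real.log (W (fun _ => (1 : ℝ)) (fun p : L × L => (K p.1, K p.2)) p) -
        Real.log (W (fun _ => (1 : ℝ))
          (fun p : L × L => ((K p.1, K p.2), c (p.1 ⊓ p.2))) p)) := by
    rintro ⟨x, y⟩
    simp only
    have key2 : A y → d x ≤
        (Real.log (W (fun _ => (1 : ℝ)) (fun p : L × L => (K p.1, K p.2)) (x, y)) -
        Real.log (W (fun _ => (1 : ℝ))
          (fun p : L × L => ((K p.1, K p.2), c (p.1 ⊓ p.2))) (x, y))) := by
      intro hy
      have e : W (fun _ => (1 : ℝ))
          (fun p : L × L => ((K p.1, K p.2), c (p.1 ⊓ p.2))) (x, y) =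
          W (fun _ => (1 : ℝ)) (fun p : L × L => ((K p.1, c p.1), K p.2)) (x, y) := by
        unfold W
        refine sum_congr rfl fun p _ => ?_
        by_cases h2 : K p.2 = K y
        · have h4 : A p.2 := (hA p.2 y h2).2 hy
          simp [h2, hc _ _ hy, hc _ _ h4]
        · simp [h2]
      rw [e, W_prod, W_prod (fun x => (K x, c x)) K,
        Real.log_mul (W_pos1 K _).ne' (W_pos1 K _).ne',
        Real.log_mul (W_pos1 _ _).ne' (W_pos1 K _).ne']
      simp only [hd]
      linarith
    have key1 : A x → d y ≤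
        (Real.log (W (fun _ => (1 : ℝ)) (fun p : L × L => (K p.1, K p.2)) (x, y)) -
        Real.log (W (fun _ => (1 : ℝ))
          (fun p : L × L => ((K p.1, K p.2), c (p.1 ⊓ p.2))) (x, y))) := by
      intro hx
      have e : W (fun _ => (1 : ℝ))
          (fun p : L × L => ((K p.1, K p.2), c (p.1 ⊓ p.2))) (x, y) =
          W (fun _ => (1 : ℝ)) (fun p : L × L => (K p.1, (K p.2, c p.2))) (x, y) := by
        unfold W
        refine sum_congr rfl fun p _ => ?_
        by_cases h2 : K p.1 = K x
        · have h4 : A p.1 := (hA p.1 x h2).2 hx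
          simp [h2, hc' _ _ hx, hc' _ _ h4]
        · simp [h2]
      rw [e, W_prod, W_prod K (fun x => (K x, c x)),
        Real.log_mul (W_pos1 K _).ne' (W_pos1 K _).ne',
        Real.log_mul (W_pos1 K _).ne' (W_pos1 _ _).ne']
      simp only [hd]
      linarith
    by_cases hy : A y
    · by_cases hx : A x
      · rw [if_pos hy, if_pos hx, hd1 y hy, add_zero]
        exact key2 hy
      · rw [if_pos hy, if_neg hx, add_zero]
        exact key2 hy
    · by_cases hx : A x
      · rw [if_neg hy, if_pos hx, zero_add]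
        exact key1 hx
      · rw [if_neg hy, if_neg hx, add_zero]
        have := W_le_of_refines (w := fun _ : L × L => (1 : ℝ)) (fun _ => zero_le_one)
          (K := fun p : L × L => (K p.1, K p.2))
          (J := fun p : L × L => ((K p.1, K p.2), c (p.1 ⊓ p.2)))
          (fun a b hab => (Prod.mk.inj hab).1) (x, y)
        have := Real.log_le_log (W_pos1 _ _) this
        linarith
  rw [hE1, hE2]
  refine le_trans ?_ (sum_le_sum fun p _ => hloc p)
  rw [sum_add_distrib, Fintype.sum_prod_type, Fintype.sum_prod_type]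
  have s1 : ∑ x : L, ∑ y : L, (if A y then d x else 0) =
      (#{y : L | A y} : ℝ) * ∑ x, d x := by
    rw [mul_sum]
    refine sum_congr rfl fun x _ => ?_
    rw [← sum_filter, sum_const, nsmul_eq_mul]
  have s2 : ∑ x : L, ∑ y : L, (if A x then d y else 0) =
      (#{y : L | A y} : ℝ) * ∑ x, d x := by
    rw [sum_comm]
    exact s1
  simp only at s1 s2 ⊢
  rw [s1, s2]
  have := mul_le_mul_of_nonneg_right hu (sum_nonneg fun x (_ : x ∈ univ) => hd0 x)
  linarith

open Classical in
/-- the coordinates in `S` -/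
noncomputable def Fc {ι : Type*} (c : ι → L → α) (S : Finset ι) (x : L) : ι → Option α :=
  fun i => if i ∈ S then some (c i x) else none

theorem Fc_iff {ι : Type*} (c : ι → L → α) (S : Finset ι) (x y : L) :
    Fc c S x = Fc c S y ↔ ∀ i ∈ S, c i x = c i y := by
  constructor
  · intro h i hi
    have := congrFun h i
    simpa [Fc, hi] using this
  · intro h
    funext i
    by_cases hi : i ∈ S
    · simp [Fc, hi, h i hi]
    · simp [Fc, hi]

open Classical in
/-- **Main step, conditional form.** -/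
theorem step {ι γ : Type*} (G : L → γ) (c : ι → L → α) (A : ι → L → Prop)
    (hA : ∀ i x y, G x = G y → (A i x ↔ A i y))
    (hc : ∀ i x y, A i y → c i (x ⊓ y) = c i x) (u : ℝ)
    (hu : ∀ i, u ≤ (#{y : L | A i y} : ℝ)) (P : Finset ι)
    (hcc : ∀ i (x y x' y' : L), c i x = c i x' → c i y = c i y' →
      c i (x ⊓ y) = c i (x' ⊓ y')) :
    2 * u * (E G - E (fun x => (G x, Fc c P x))) ≤
      E (fun p : L × L => (G p.1, G p.2)) -
        E (fun p : L × L => ((G p.1, G p.2), Fc c P (p.1 ⊓ p.2))) := by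
  induction P using Finset.induction_on with
  | empty =>
    have e1 : E (fun x => (G x, Fc c (∅ : Finset ι) x)) = E G := by
      refine E_eq fun a b => ?_
      simp [Fc_iff]
    have e2 : E (fun p : L × L => ((G p.1, G p.2), Fc c (∅ : Finset ι) (p.1 ⊓ p.2))) =
        E (fun p : L × L => (G p.1, G p.2)) := by
      refine E_eq fun a b => ?_
      simp [Fc_iff]
    rw [e1, e2]
    simp
  | insert m S hm ih =>
    have hl := loc (fun x => (G x, Fc c S x)) (A m)
      (fun x y hxy => hA m x y (Prod.mk.inj hxy).1) (c m) (hc m) u (by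
        convert hu m using 2)
    have hs := E_submod (fun p : L × L => ((G p.1, G p.2), Fc c S (p.1 ⊓ p.2)))
      (fun p : L × L => ((G p.1, Fc c S p.1), (G p.2, Fc c S p.2)))
      (fun p : L × L => c m (p.1 ⊓ p.2)) (by
        intro a b hab
        simp only [Prod.mk.injEq, Fc_iff] at hab ⊢
        obtain ⟨⟨h1, h2⟩, h3, h4⟩ := hab
        exact ⟨⟨h1, h3⟩, fun i hi => hcc i _ _ _ _ (h2 i hi) (h4 i hi)⟩)
    have e1 : E (fun x => (G x, Fc c (insert m S) x)) =
        E (fun x => ((G x, Fc c S x), c m x)) := by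
      refine E_eq fun a b => ?_
      simp only [Prod.mk.injEq, Fc_iff, Finset.mem_insert, forall_eq_or_imp]
      tauto
    have e2 : E (fun p : L × L => ((G p.1, G p.2), Fc c (insert m S) (p.1 ⊓ p.2))) =
        E (fun p : L × L => (((G p.1, G p.2), Fc c S (p.1 ⊓ p.2)), c m (p.1 ⊓ p.2))) := by
      refine E_eq fun a b => ?_
      simp only [Prod.mk.injEq, Fc_iff, Finset.mem_insert, forall_eq_or_imp]
      tauto
    rw [e1, e2]
    have : 2 * u * (E G - E (fun x => ((G x, Fc c S x), c m x))) =
        2 * u * (E G - E (fun x => (G x, Fc c S x))) +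
        2 * u * (E (fun x => (G x, Fc c S x)) - E (fun x => ((G x, Fc c S x), c m x))) := by ring
    rw [this]
    linarith

open Classical in
/-- **Main step.**  `F` is determined by the coordinates `c i` and determines them, `G` is a function of
`F`, compatible with meets. -/
theorem step2 {ι β γ : Type*} [Fintype ι] (F : L → β) (G : L → γ) (c : ι → L → α)
    (A : ι → L → Prop)
    (hF : ∀ x y, F x = F y ↔ ∀ i, c i x = c i y)
    (hFG : ∀ x y, F x = F y → G x = G y)
    (hGG : ∀ x y x' y', G x = G x' → G y = G y' → G (x ⊓ y) = G (x' ⊓ y'))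
    (hA : ∀ i x y, G x = G y → (A i x ↔ A i y))
    (hc : ∀ i x y, A i y → c i (x ⊓ y) = c i x)
    (hcc : ∀ i (x y x' y' : L), c i x = c i x' → c i y = c i y' →
      c i (x ⊓ y) = c i (x' ⊓ y'))
    (u : ℝ) (hu : ∀ i, u ≤ (#{y : L | A i y} : ℝ)) :
    E (fun p : L × L => F (p.1 ⊓ p.2)) + 2 * u * (E G - E F) ≤
      E (fun p : L × L => G (p.1 ⊓ p.2)) := by
  have hs := step G c A hA hc u hu univ hcc
  have e1 : E (fun x => (G x, Fc c univ x)) = E F := by
    refine E_eq fun a b => ?_
    simp only [Prod.mk.injEq, Fc_iff, mem_univ, true_imp_iff, ← hF]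
    exact ⟨fun h => h.2, fun h => ⟨hFG a b h, h⟩⟩
  have hm := E_submod (fun p : L × L => G (p.1 ⊓ p.2)) (fun p : L × L => (G p.1, G p.2))
    (fun p : L × L => Fc c univ (p.1 ⊓ p.2)) (by
      intro a b hab
      simp only [Prod.mk.injEq] at hab
      exact hGG _ _ _ _ hab.1 hab.2)
  have e2 : E (fun p : L × L => (G (p.1 ⊓ p.2), Fc c univ (p.1 ⊓ p.2))) =
      E (fun p : L × L => F (p.1 ⊓ p.2)) := by
    refine E_eq fun a b => ?_
    simp only [Prod.mk.injEq, Fc_iff, mem_univ, true_imp_iff, ← hF]
    exact ⟨fun h => h.2, fun h => ⟨hFG _ _ h, h⟩⟩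
  rw [e1] at hs
  rw [e2] at hm
  linarith

end Pool.Agent.H9.FM.EntG
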