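import Pool.Agent.H9.FM.CoverG
import Pool.Agent.H9.FM.NearHalf

set_option autoImplicit false

/-!
# Lattices with short chains of frequent joins
-/

universe u

namespace Pool.Agent.H9.FM

open CG

/-- The height in the members `z` of `J` with `Freq c z`. -/
theorem exists_ht {L : Type u} [Lattice L] [Finite L] (n : ℕ) (c : ℝ) (J : Set L)
    (hch : ∀ z : Fin (n + 2) → L, (∀ i, z i ∈ J ∧ Freq c (z i)) → ¬ StrictMono z) :
    ∃ ht : L → ℕ, HT J c ht ∧ ∀ x ∈ J, Freq c x → ht x ≤ n := by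
  classical
  have hle : ∀ p : {x : L // x ∈ J ∧ Freq c x}, Order.height p ≤ (n : ℕ∞) := by
    intro p
    refine Order.height_le fun q _ => ?_
    by_contra hcon
    have hlen : n + 1 ≤ q.length := by
      have h1 : (n : ℕ∞) < (q.length : ℕ∞) := not_le.1 hcon
      have h2 : n < q.length := by exact_mod_cast h1
      omega
    refine hch (fun i => (q.toFun (Fin.castLE (by omega) i)).1)
      (fun i => (q.toFun (Fin.castLE (by omega) i)).2) ?_
    intro i j hij
    exact q.strictMono (Fin.strictMono_castLE (by omega) hij)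
  refine ⟨fun x => if h : x ∈ J ∧ Freq c x then
    (Order.height (⟨x, h⟩ : {x : L // x ∈ J ∧ Freq c x})).toNat else 0, ?_, ?_⟩
  · intro x hx y hy hyc hxy
    have hxc : Freq c x := hyc.anti hxy.le
    have hx' : x ∈ J ∧ Freq c x := ⟨hx, hxc⟩
    have hy' : y ∈ J ∧ Freq c y := ⟨hy, hyc⟩
    simp only [dif_pos hx', dif_pos hy']
    have hfin : ∀ p : {x : L // x ∈ J ∧ Freq c x}, Order.height p < ⊤ := fun p =>
      lt_of_le_of_lt (hle p) (ENat.natCast_lt_top n)
    have h1 : Order.height (⟨x, hx, hxc⟩ : {x : L // x ∈ J ∧ Freq c x}) <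
        Order.height (⟨y, hy, hyc⟩ : {x : L // x ∈ J ∧ Freq c x}) :=
      Order.height_strictMono hxy (hfin _)
    rw [← ENat.natCast_toNat (hfin ⟨x, hx'⟩).ne, ← ENat.natCast_toNat (hfin ⟨y, hy'⟩).ne] at h1
    exact_mod_cast h1
  · intro x hx hxc
    have hx' : x ∈ J ∧ Freq c x := ⟨hx, hxc⟩
    simp only [dif_pos hx']
    exact ENat.toNat_le_of_le_natCast (hle _)

/-- For every `n` and every `g < (1 / 2) ^ (n + 1)` there are `C` and `δ > 0` such that the following holds
for every finite lattice `L` with more than `C` elements. Let `A` be a set of join-irreducibles such that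
every join-irreducible lies below a member of `A`. If no `n + 2` joins `z` of members of `A` with
`|{x : z ≤ x}| ≥ g |L|` form a chain, then some member `a` of `A` satisfies
`|{x : a ≤ x}| < (1 / 2 - δ) |L|`. -/
theorem frequent (n : ℕ) (g : ℝ) (hg : g < (1 / 2 : ℝ) ^ (n + 1)) :
    ∃ (C : ℕ) (δ : ℝ), 0 < δ ∧ ∀ (L : Type u) [Lattice L] [Finite L] (A : Finset L),
      (∀ j : L, SupIrred j → ∃ a ∈ A, j ≤ a) →
      (∀ z : Fin (n + 2) → L, (∀ i, (∃ B : Finset L, B ⊆ A ∧ IsLUB (B : Set L) (z i)) ∧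
        g * (Nat.card L : ℝ) ≤ (Nat.card {x : L // z i ≤ x} : ℝ)) → ¬ StrictMono z) →
      C < Nat.card L →
      ∃ a ∈ A, (Nat.card {x : L // a ≤ x} : ℝ) < (1 / 2 - δ) * (Nat.card L : ℝ) := by
  obtain ⟨R, δ, hδ, H⟩ := covTop.{u} n (max g 0) (le_max_right _ _)
    (max_lt hg (by positivity)) (fun r => 1 / (4 * ((r : ℝ) + 1))) (fun r => by positivity)
  refine ⟨2 ^ (2 * (R * (R + 1))), δ, hδ, ?_⟩
  intro L _ _ A hdom hch hC
  classical
  by_contra hcon
  push Not at hcon
  have := Fintype.ofFinite L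
  have hne : Nonempty L := by
    rw [← not_isEmpty_iff]
    intro hem
    rw [Nat.card_of_isEmpty] at hC
    exact absurd hC (Nat.not_lt_zero _)
  let _ : BoundedOrder L := Fintype.toBoundedOrder L
  obtain ⟨J, hJdef⟩ : ∃ J : Set L, J = {x | ∃ B : Finset L, B ⊆ A ∧ B.sup id = x} := ⟨_, rfl⟩
  have hJ : JoinClosed J := by
    rw [hJdef]
    refine ⟨⟨∅, Finset.empty_subset _, Finset.sup_empty⟩, ?_⟩
    rintro x ⟨B, hB, rfl⟩ y ⟨B', hB', rfl⟩
    exact ⟨B ∪ B', Finset.union_subset hB hB', Finset.sup_union⟩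
  obtain ⟨ht, hht, hn⟩ := exists_ht n (max g 0) J (by
    intro z hz
    refine hch z fun i => ⟨?_, ?_⟩
    · have h1 := (hz i).1
      rw [hJdef] at h1
      obtain ⟨B, hB, hBz⟩ := h1
      refine ⟨B, hB, ?_⟩
      rw [← hBz]
      exact Finset.isLUB_sup_id
    · have h1 := (hz i).2
      unfold Freq at h1
      refine le_trans ?_ h1
      exact mul_le_mul_of_nonneg_right (le_max_left _ _) (Nat.cast_nonneg _))
  obtain ⟨r, hr, Z, hZc, hZn, hZ⟩ := H L J hJ ht hht hn (A : Set L)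
    (fun a ha => by
      rw [hJdef]
      refine ⟨{a}, Finset.singleton_subset_iff.2 ha, ?_⟩
      rw [Finset.sup_singleton, id])
    (fun a ha => hcon a ha)
  have hmain := nearHalf (fun z : Z => (z : L))
    (fun j hj => by
      obtain ⟨a, ha, hja⟩ := hdom j hj
      obtain ⟨z, hz, haz⟩ := hZ a ha
      exact ⟨⟨z, hz⟩, hja.trans haz⟩)
    (by
      rintro ⟨z, hz⟩
      have h1 := hZn z hz
      unfold Near at h1
      refine le_trans ?_ h1
      rw [Fintype.card_coe]
      have h2 : (Z.card : ℝ) ≤ r := Nat.cast_le.2 hZc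
      have h3 : (0 : ℝ) ≤ (Z.card : ℝ) := Nat.cast_nonneg _
      have h4 : (1 : ℝ) / (4 * ((r : ℝ) + 1)) ≤ 1 / (4 * ((Z.card : ℝ) + 1)) :=
        one_div_le_one_div_of_le (by positivity) (by linarith)
      have h5 : (Nat.card L : ℝ) / 2 * (1 - 1 / (2 * ((Z.card : ℝ) + 1))) =
          (1 / 2 - 1 / (4 * ((Z.card : ℝ) + 1))) * (Nat.card L : ℝ) := by
        field_simp
        ring
      rw [h5]
      exact mul_le_mul_of_nonneg_right (by linarith) (Nat.cast_nonneg _))
  rw [Fintype.card_coe] at hmain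
  have hmono : 2 ^ (2 * (Z.card * (Z.card + 1))) ≤ 2 ^ (2 * (R * (R + 1))) := by
    refine Nat.pow_le_pow_right (by norm_num) (Nat.mul_le_mul_left 2 ?_)
    have h1 : Z.card ≤ R := hZc.trans hr
    exact Nat.mul_le_mul h1 (by omega)
  omega

end Pool.Agent.H9.FM
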