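import Mathlib

/-!
# Weights of the coordinates of a finite set of functions (chain rule for the entropy)
-/

set_option autoImplicit false

namespace Pool.Agent.H9.FM

open Finset

/-- the restriction of `x` to `A` -/
def res {ι Y : Type*} [DecidableEq ι] (A : Finset ι) (x : ι → Y) : ι → Option Y :=
  fun m => if m ∈ A then some (x m) else none

/-- Gibbs' inequality for a partition. -/
theorem gibbs {Y : Type*} (V : Finset Y) (d b : Y → ℝ) (n B : ℝ) (hd : ∀ y ∈ V, 0 < d y)
    (hb : ∀ y ∈ V, 0 < b y) (hn : 0 < n) (hB : 0 < B) (hsd : ∑ y ∈ V, d y = n)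
    (hsb : ∑ y ∈ V, b y ≤ B) :
    Real.log n + ∑ y ∈ V, d y / n * (Real.log (b y) - Real.log (d y)) ≤ Real.log B := by
  have h1 : ∀ y ∈ V, d y / n * (Real.log (b y) - Real.log (d y) + Real.log n - Real.log B) ≤
      b y / B - d y / n := by
    intro y hy
    have h2 := Real.log_le_sub_one_of_pos
      (show 0 < b y * n / (B * d y) from div_pos (mul_pos (hb y hy) hn) (mul_pos hB (hd y hy)))
    rw [Real.log_div (mul_pos (hb y hy) hn).ne' (mul_pos hB (hd y hy)).ne',
      Real.log_mul (hb y hy).ne' hn.ne', Real.log_mul hB.ne' (hd y hy).ne'] at h2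
    have h3 := mul_le_mul_of_nonneg_left h2 (div_pos (hd y hy) hn).le
    have h4 : d y / n * (b y * n / (B * d y) - 1) = b y / B - d y / n := by
      have := (hd y hy).ne'
      field_simp
    rw [h4] at h3
    refine le_trans (le_of_eq ?_) h3
    ring
  have h5 := Finset.sum_le_sum h1
  have h6 : ∑ y ∈ V, (b y / B - d y / n) ≤ 0 := by
    rw [Finset.sum_sub_distrib, ← Finset.sum_div, ← Finset.sum_div, hsd, div_self hn.ne']
    have : (∑ y ∈ V, b y) / B ≤ 1 := (div_le_one hB).2 hsb
    linarith
  have h7 : ∑ y ∈ V, d y / n * (Real.log (b y) - Real.log (d y) + Real.log n - Real.log B) =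
      ∑ y ∈ V, d y / n * (Real.log (b y) - Real.log (d y)) + (Real.log n - Real.log B) := by
    have h8 : ∀ y ∈ V, d y / n * (Real.log (b y) - Real.log (d y) + Real.log n - Real.log B) =
        d y / n * (Real.log (b y) - Real.log (d y)) + d y / n * (Real.log n - Real.log B) :=
      fun y _ => by ring
    rw [Finset.sum_congr rfl h8, Finset.sum_add_distrib, ← Finset.sum_mul, ← Finset.sum_div, hsd,
      div_self hn.ne', one_mul]
  rw [h7] at h5
  linarith

/-- The chain rule: nonnegative weights of total `log |D|` whose sum over `A` is at most the logarithm of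
the number of restrictions to `A` of the members of `D`. -/
theorem exists_weights {ι Y : Type*} [DecidableEq ι] (s : Finset ι) :
    ∀ D : Finset (ι → Y), D.Nonempty →
      (∀ x ∈ D, ∀ y ∈ D, (∀ m ∈ s, x m = y m) → x = y) →
      ∃ w : ι → ℝ, (∀ m, 0 ≤ w m) ∧ ∑ m ∈ s, w m = Real.log D.card ∧
        ∀ A ⊆ s, ∀ E : Finset (ι → Option Y), (∀ x ∈ D, res A x ∈ E) →
          ∑ m ∈ A, w m ≤ Real.log E.card := by
  classical
  induction s using Finset.induction_on with
  | empty =>
    intro D hD hinj
    have h1 : D.card = 1 := by
      obtain ⟨x, hx⟩ := hD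
      refine Finset.card_eq_one.2 ⟨x, Finset.eq_singleton_iff_unique_mem.2 ⟨hx, fun y hy => ?_⟩⟩
      exact hinj y hy x hx (by simp)
    refine ⟨fun _ => 0, fun _ => le_rfl, by rw [h1]; simp, fun A _ E _ => ?_⟩
    rw [Finset.sum_const_zero]
    exact Real.log_natCast_nonneg _
  | insert a s ha ih =>
    intro D hD hinj
    obtain ⟨V, hV⟩ : ∃ V, V = D.image (fun x => x a) := ⟨_, rfl⟩
    have hslice : ∀ y, ∃ w : ι → ℝ, (∀ m, 0 ≤ w m) ∧ (y ∈ V →
        ∑ m ∈ s, w m = Real.log (D.filter fun x => x a = y).card ∧
        ∀ A ⊆ s, ∀ E : Finset (ι → Option Y),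
          (∀ x ∈ D.filter (fun x => x a = y), res A x ∈ E) →
          ∑ m ∈ A, w m ≤ Real.log E.card) := by
      intro y
      by_cases hy : y ∈ V
      · have hne : (D.filter fun x => x a = y).Nonempty := by
          rw [hV, Finset.mem_image] at hy
          obtain ⟨x, hx, hxy⟩ := hy
          exact ⟨x, Finset.mem_filter.2 ⟨hx, hxy⟩⟩
        obtain ⟨w, h1, h2, h3⟩ := ih _ hne (by
          intro x hx z hz hxz
          rw [Finset.mem_filter] at hx hz
          refine hinj x hx.1 z hz.1 fun m hm => ?_
          rcases Finset.mem_insert.1 hm with rfl | hm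
          · rw [hx.2, hz.2]
          · exact hxz m hm)
        exact ⟨w, h1, fun _ => ⟨h2, h3⟩⟩
      · exact ⟨fun _ => 0, fun _ => le_rfl, fun h => absurd h hy⟩
    choose W hW0 hW using hslice
    obtain ⟨n, hn⟩ : ∃ n : ℝ, n = D.card := ⟨_, rfl⟩
    obtain ⟨d, hd⟩ : ∃ d : Y → ℝ, ∀ y, d y = ((D.filter fun x => x a = y).card : ℝ) :=
      ⟨_, fun _ => rfl⟩
    have hn0 : 0 < n := by rw [hn]; exact_mod_cast hD.card_pos
    have hd0 : ∀ y ∈ V, 0 < d y := by
      intro y hy
      rw [hV, Finset.mem_image] at hy
      obtain ⟨x, hx, hxy⟩ := hy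
      rw [hd]
      exact Nat.cast_pos.2 (Finset.card_pos.2 ⟨x, Finset.mem_filter.2 ⟨hx, hxy⟩⟩)
    have hdn : ∀ y, d y ≤ n := by
      intro y
      rw [hd, hn]
      exact Nat.cast_le.2 (Finset.card_le_card (Finset.filter_subset _ _))
    have hsd : ∑ y ∈ V, d y = n := by
      simp only [hd]
      rw [hn, Finset.card_eq_sum_card_fiberwise (f := fun x => x a) (s := D) (t := V)
        (fun x hx => by rw [hV]; exact Finset.mem_image_of_mem _ hx)]
      push_cast
      rfl
    have hp : ∑ y ∈ V, d y / n = 1 := by rw [← Finset.sum_div, hsd, div_self hn0.ne']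
    refine ⟨fun m => if m = a then Real.log n - ∑ y ∈ V, d y / n * Real.log (d y)
      else ∑ y ∈ V, d y / n * W y m, ?_, ?_, ?_⟩
    · intro m
      dsimp only
      split_ifs with hm
      · have h1 : ∑ y ∈ V, d y / n * Real.log (d y) ≤ ∑ y ∈ V, d y / n * Real.log n := by
          refine Finset.sum_le_sum fun y hy => ?_
          exact mul_le_mul_of_nonneg_left (Real.log_le_log (hd0 y hy) (hdn y))
            (div_pos (hd0 y hy) hn0).le
        rw [← Finset.sum_mul, hp, one_mul] at h1
        linarith
      · exact Finset.sum_nonneg fun y hy => mul_nonneg (div_pos (hd0 y hy) hn0).le (hW0 y m)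
    · rw [Finset.sum_insert ha, if_pos rfl]
      have h1 : ∑ m ∈ s, (if m = a then Real.log n - ∑ y ∈ V, d y / n * Real.log (d y)
          else ∑ y ∈ V, d y / n * W y m) = ∑ y ∈ V, d y / n * Real.log (d y) := by
        have h2 : ∀ m ∈ s, (if m = a then Real.log n - ∑ y ∈ V, d y / n * Real.log (d y)
          else ∑ y ∈ V, d y / n * W y m) = ∑ y ∈ V, d y / n * W y m := by
          intro m hm
          rw [if_neg]
          rintro rfl
          exact ha hm
        rw [Finset.sum_congr rfl h2, Finset.sum_comm]
        refine Finset.sum_congr rfl fun y hy => ?_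
        rw [← Finset.mul_sum, (hW y hy).1, hd]
      rw [h1, hn]
      ring
    · intro A hA E hE
      have hEpos : 0 < (E.card : ℝ) := by
        obtain ⟨x, hx⟩ := hD
        exact_mod_cast Finset.card_pos.2 ⟨_, hE x hx⟩
      by_cases haA : a ∈ A
      · have hA' : A.erase a ⊆ s := by
          intro m hm
          rw [Finset.mem_erase] at hm
          exact (Finset.mem_insert.1 (hA hm.2)).resolve_left hm.1
        -- the fibres of `E`
        obtain ⟨b, hb⟩ : ∃ b : Y → ℝ, ∀ y, b y = ((E.filter fun g => g a = some y).card : ℝ) :=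
          ⟨_, fun _ => rfl⟩
        have hb0 : ∀ y ∈ V, 0 < b y := by
          intro y hy
          rw [hV, Finset.mem_image] at hy
          obtain ⟨x, hx, hxy⟩ := hy
          rw [hb]
          refine Nat.cast_pos.2 (Finset.card_pos.2 ⟨res A x, Finset.mem_filter.2 ⟨hE x hx, ?_⟩⟩)
          simp only [res, if_pos haA, hxy]
        have hsb : ∑ y ∈ V, b y ≤ E.card := by
          simp only [hb]
          have h1 : ∑ y ∈ V, (E.filter fun g => g a = some y).card ≤ E.card := by
            rw [← Finset.card_biUnion]
            · exact Finset.card_le_card (Finset.biUnion_subset.2 fun y _ =>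
                Finset.filter_subset _ _)
            · intro y _ z _ hyz
              refine Finset.disjoint_left.2 fun g hg hg' => hyz ?_
              rw [Finset.mem_filter] at hg hg'
              have := hg.2.symm.trans hg'.2
              exact Option.some_injective _ this
          exact_mod_cast h1
        have hg := gibbs V d b n E.card hd0 hb0 hn0 hEpos hsd hsb
        have hbW : ∀ y ∈ V, ∑ m ∈ A.erase a, W y m ≤ Real.log (b y) := by
          intro y hy
          have h1 := (hW y hy).2 (A.erase a) hA'
            ((E.filter fun g => g a = some y).image fun g m =>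
              if m ∈ A.erase a then g m else none) (by
              intro x hx
              rw [Finset.mem_filter] at hx
              refine Finset.mem_image.2 ⟨res A x, Finset.mem_filter.2 ⟨hE x hx.1, ?_⟩, ?_⟩
              · simp only [res, if_pos haA, hx.2]
              · funext m
                simp only [res]
                by_cases hm : m ∈ A.erase a
                · rw [if_pos hm, if_pos hm, if_pos (Finset.mem_of_mem_erase hm)]
                · rw [if_neg hm, if_neg hm])
          refine h1.trans (Real.log_le_log ?_ ?_)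
          · refine Nat.cast_pos.2 (Finset.card_pos.2 (Finset.image_nonempty.2 ?_))
            refine Finset.card_pos.1 ?_
            have := hb0 y hy
            rw [hb] at this
            exact_mod_cast this
          · rw [hb]
            exact_mod_cast Finset.card_image_le
        have hsum : ∑ m ∈ A, (if m = a then Real.log n - ∑ y ∈ V, d y / n * Real.log (d y)
            else ∑ y ∈ V, d y / n * W y m) =
            Real.log n + ∑ y ∈ V, d y / n * (∑ m ∈ A.erase a, W y m - Real.log (d y)) := by
          rw [← Finset.add_sum_erase A _ haA, if_pos rfl]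
          have h2 : ∀ m ∈ A.erase a, (if m = a then
              Real.log n - ∑ y ∈ V, d y / n * Real.log (d y)
              else ∑ y ∈ V, d y / n * W y m) = ∑ y ∈ V, d y / n * W y m := by
            intro m hm
            rw [if_neg (Finset.ne_of_mem_erase hm)]
          rw [Finset.sum_congr rfl h2, Finset.sum_comm]
          simp only [mul_sub, Finset.sum_sub_distrib, Finset.mul_sum]
          ring
        rw [hsum]
        refine le_trans ?_ hg
        refine add_le_add le_rfl (Finset.sum_le_sum fun y hy => ?_)
        exact mul_le_mul_of_nonneg_left (by linarith [hbW y hy]) (div_pos (hd0 y hy) hn0).le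
      · have hA' : A ⊆ s := by
          intro m hm
          refine (Finset.mem_insert.1 (hA hm)).resolve_left ?_
          rintro rfl
          exact haA hm
        have h2 : ∀ m ∈ A, (if m = a then Real.log n - ∑ y ∈ V, d y / n * Real.log (d y)
          else ∑ y ∈ V, d y / n * W y m) = ∑ y ∈ V, d y / n * W y m := by
          intro m hm
          rw [if_neg]
          rintro rfl
          exact haA hm
        rw [Finset.sum_congr rfl h2, Finset.sum_comm]
        have h3 : ∑ y ∈ V, ∑ m ∈ A, d y / n * W y m ≤ ∑ y ∈ V, d y / n * Real.log E.card := by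
          refine Finset.sum_le_sum fun y hy => ?_
          rw [← Finset.mul_sum]
          refine mul_le_mul_of_nonneg_left ?_ (div_pos (hd0 y hy) hn0).le
          exact (hW y hy).2 A hA' E fun x hx => hE x (Finset.mem_filter.1 hx).1
        rw [← Finset.sum_mul, hp, one_mul] at h3
        exact h3

end Pool.Agent.H9.FM
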