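import Pool.Agent.H9.FM.Core
import Pool.Agent.H9.FM.Weights

/-!
# Meet-semilattices with few top elements of coordinates
-/

set_option autoImplicit false

namespace Pool.Agent.H9.FM

open Finset

/-- Let `L` be a finite meet-semilattice and `J m`, `m ∈ ι`, elements such that `x` is determined by the
meets `x ⊓ J m`. If `L` has more than `2 ^ (r (r + 1))` elements, `r = |ι|`, then some `J m` lies below fewer
than half of the elements. -/
theorem few_tops {L ι : Type*} [SemilatticeInf L] [Fintype L] [Fintype ι] (J : ι → L)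
    (hJ : ∀ x y : L, (∀ m, x ⊓ J m = y ⊓ J m) → x = y)
    (hN : 2 ^ (Fintype.card ι * (Fintype.card ι + 1)) < Fintype.card L) :
    ∃ m, 2 * Nat.card {y : L // J m ≤ y} < Fintype.card L := by
  classical
  by_contra hcon
  push Not at hcon
  obtain ⟨T, hT⟩ : ∃ T : L → Finset ι, ∀ x m, m ∈ T x ↔ J m ≤ x :=
    ⟨fun x => Finset.univ.filter fun m => J m ≤ x, fun x m => by simp⟩
  obtain ⟨c, hc⟩ : ∃ c : L → ι → L, ∀ x m, c x m = x ⊓ J m := ⟨_, fun _ _ => rfl⟩
  have hcinj : Function.Injective c := by
    intro x y hxy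
    refine hJ x y fun m => ?_
    rw [← hc, ← hc, hxy]
  obtain ⟨D, hD⟩ : ∃ D : Finset ι → Finset (ι → L),
      ∀ S, D S = (Finset.univ.filter fun y => T y = S).image c := ⟨_, fun _ => rfl⟩
  have hmemD : ∀ x, c x ∈ D (T x) := by
    intro x
    rw [hD]
    exact Finset.mem_image_of_mem _ (by simp)
  have hDcard : ∀ S, (D S).card = (Finset.univ.filter fun y => T y = S).card := by
    intro S
    rw [hD, Finset.card_image_of_injective _ hcinj]
  have hW : ∀ S, ∃ w : ι → ℝ, (∀ m, 0 ≤ w m) ∧ ((D S).Nonempty →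
      ∑ m, w m = Real.log (D S).card ∧ ∀ A : Finset ι, ∀ E : Finset (ι → Option L),
        (∀ x ∈ D S, res A x ∈ E) → ∑ m ∈ A, w m ≤ Real.log E.card) := by
    intro S
    by_cases hS : (D S).Nonempty
    · obtain ⟨w, h1, h2, h3⟩ := exists_weights Finset.univ (D S) hS
        (fun x _ y _ h => funext fun m => h m (Finset.mem_univ m))
      exact ⟨w, h1, fun _ => ⟨h2, fun A E hE => h3 A (Finset.subset_univ A) E hE⟩⟩
    · exact ⟨fun _ => 0, fun _ => le_rfl, fun h => absurd h hS⟩
  choose W hW0 hW1 using hW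
  have hWx := fun x : L => hW1 (T x) ⟨_, hmemD x⟩
  -- the coordinates below
  have hcoord : ∀ x y m, J m ≤ y → c (x ⊓ y) m = c x m := by
    intro x y m h
    rw [hc, hc, inf_assoc, inf_eq_right.2 h]
  have hcoord' : ∀ x y m, J m ≤ x → c (x ⊓ y) m = c y m := by
    intro x y m h
    rw [inf_comm]
    exact hcoord y x m h
  refine absurd (core T (fun x m => W (T x) m) (fun x m => hW0 _ m) ?_ ?_ ?_ ?_) (not_le.2 hN)
  · intro x y
    have h1 := (hWx x).2 (T y) ((D (T x)).image (res (T y)))
      (fun z hz => Finset.mem_image_of_mem _ hz)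
    have h2 := (hWx y).2 (T x) ((D (T y)).image (res (T x)))
      (fun z hz => Finset.mem_image_of_mem _ hz)
    have hp1 : 0 < (((D (T x)).image (res (T y))).card : ℝ) :=
      Nat.cast_pos.2 (Finset.card_pos.2 ⟨_, Finset.mem_image_of_mem _ (hmemD x)⟩)
    have hp2 : 0 < (((D (T y)).image (res (T x))).card : ℝ) :=
      Nat.cast_pos.2 (Finset.card_pos.2 ⟨_, Finset.mem_image_of_mem _ (hmemD y)⟩)
    have h3 : ((D (T x)).image (res (T y))).card * ((D (T y)).image (res (T x))).card ≤
        Fintype.card L := by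
      rw [← Finset.card_product, ← Finset.card_univ]
      refine (Finset.card_le_card (t := Finset.univ.image fun z : L =>
        (res (T y) (c z), res (T x) (c z))) ?_).trans Finset.card_image_le
      rintro ⟨p, q⟩ hpq
      rw [Finset.mem_product] at hpq
      obtain ⟨hp, hq⟩ := hpq
      simp only [hD, Finset.mem_image, Finset.mem_filter, Finset.mem_univ, true_and] at hp hq
      obtain ⟨_, ⟨x', hx', rfl⟩, hp⟩ := hp
      obtain ⟨_, ⟨y', hy', rfl⟩, hq⟩ := hq
      refine Finset.mem_image.2 ⟨x' ⊓ y', Finset.mem_univ _, Prod.ext ?_ ?_⟩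
      · show res (T y) (c (x' ⊓ y')) = p
        rw [← hp]
        funext m
        simp only [res]
        by_cases hm : m ∈ T y
        · rw [if_pos hm, if_pos hm, hcoord x' y' m ((hT y' m).1 (hy'.symm ▸ hm))]
        · rw [if_neg hm, if_neg hm]
      · show res (T x) (c (x' ⊓ y')) = q
        rw [← hq]
        funext m
        simp only [res]
        by_cases hm : m ∈ T x
        · rw [if_pos hm, if_pos hm, hcoord' x' y' m ((hT x' m).1 (hx'.symm ▸ hm))]
        · rw [if_neg hm, if_neg hm]
    calc ∑ m ∈ T y, W (T x) m + ∑ m ∈ T x, W (T y) m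
        ≤ Real.log ((D (T x)).image (res (T y))).card +
          Real.log ((D (T y)).image (res (T x))).card := add_le_add h1 h2
      _ = Real.log (((D (T x)).image (res (T y))).card * ((D (T y)).image (res (T x))).card) :=
          (Real.log_mul hp1.ne' hp2.ne').symm
      _ ≤ Real.log (Fintype.card L) := Real.log_le_log (mul_pos hp1 hp2) (by exact_mod_cast h3)
  · intro x
    have h1 := (hWx x).2 (T x) {res (T x) J} (by
      intro z hz
      simp only [hD, Finset.mem_image, Finset.mem_filter, Finset.mem_univ, true_and] at hz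
      obtain ⟨y, hy, rfl⟩ := hz
      rw [Finset.mem_singleton]
      funext m
      simp only [res]
      by_cases hm : m ∈ T x
      · rw [if_pos hm, if_pos hm, hc, inf_eq_right.2 ((hT y m).1 (hy.symm ▸ hm))]
      · rw [if_neg hm, if_neg hm])
    rw [Finset.card_singleton, Nat.cast_one, Real.log_one] at h1
    exact le_antisymm h1 (Finset.sum_nonneg fun m _ => hW0 _ m)
  · intro x
    rw [(hWx x).1, hDcard]
  · intro m
    have h1 := hcon m
    rw [Nat.card_eq_fintype_card, Fintype.card_subtype] at h1
    simpa only [hT] using h1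

end Pool.Agent.H9.FM
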