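import Mathlib

/-!
# A trace inequality

If `P x y = c - ∑ m, (a x m * b y m + a y m * b x m)` with `m` in a set of `r` elements, `c ≥ 0` and nonnegative trace,
then `(tr P) ^ 2 ≤ (r + 1) ∑ P x y ^ 2`.
-/

set_option autoImplicit false

namespace Pool.Agent.H9.FM

open Matrix Finset

variable {X : Type*} [Fintype X]

/-- A symmetric idempotent matrix of trace at most the length of the list which fixes all vectors of the list. -/
theorem exists_proj [DecidableEq X] (L : List (X → ℝ)) :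
    ∃ Q : Matrix X X ℝ, Qᵀ = Q ∧ Q * Q = Q ∧ Q.trace ≤ (L.length : ℝ) ∧ ∀ u ∈ L, Q *ᵥ u = u := by
  induction L with
  | nil => exact ⟨0, by simp, by simp, by simp, by simp⟩
  | cons u L ih =>
    obtain ⟨Q, hs, hi, ht, hu⟩ := ih
    by_cases hv0 : u - Q *ᵥ u = 0
    · refine ⟨Q, hs, hi, ?_, ?_⟩
      · rw [List.length_cons]
        push_cast
        linarith
      · intro w hw
        rcases List.mem_cons.1 hw with rfl | hw
        · exact (sub_eq_zero.1 hv0).symm
        · exact hu w hw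
    · obtain ⟨v, hv⟩ : ∃ v, v = u - Q *ᵥ u := ⟨_, rfl⟩
      have hvne : v ≠ 0 := by rw [hv]; exact hv0
      have hcne : v ⬝ᵥ v ≠ 0 := fun h => hvne (dotProduct_self_eq_zero.1 h)
      have hQv : Q *ᵥ v = 0 := by
        rw [hv, Matrix.mulVec_sub, Matrix.mulVec_mulVec, hi, sub_self]
      have hvQ : v ᵥ* Q = 0 := by
        rw [← hs, Matrix.vecMul_transpose, hQv]
      have hdot : ∀ w, Q *ᵥ w = w → v ⬝ᵥ w = 0 := by
        intro w hw
        rw [← hw, Matrix.dotProduct_mulVec, hvQ, zero_dotProduct]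
      have hvu : v ⬝ᵥ u = v ⬝ᵥ v := by
        have h1 : u = v + Q *ᵥ u := by rw [hv]; abel
        have h2 : v ⬝ᵥ (Q *ᵥ u) = 0 := by
          rw [Matrix.dotProduct_mulVec, hvQ, zero_dotProduct]
        calc v ⬝ᵥ u = v ⬝ᵥ (v + Q *ᵥ u) := by rw [← h1]
          _ = v ⬝ᵥ v := by rw [dotProduct_add, h2, add_zero]
      have hmv : ∀ w, Matrix.vecMulVec v v *ᵥ w = (v ⬝ᵥ w) • v := by
        intro w
        ext x
        simp only [Matrix.mulVec, Matrix.vecMulVec_apply, dotProduct, Pi.smul_apply, smul_eq_mul]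
        rw [Finset.sum_mul]
        exact Finset.sum_congr rfl fun y _ => by ring
      refine ⟨Q + (v ⬝ᵥ v)⁻¹ • Matrix.vecMulVec v v, ?_, ?_, ?_, ?_⟩
      · rw [Matrix.transpose_add, hs, Matrix.transpose_smul, Matrix.transpose_vecMulVec]
      · have h1 : Q * Matrix.vecMulVec v v = 0 := by
          rw [Matrix.mul_vecMulVec, hQv]
          ext x y
          simp [Matrix.vecMulVec_apply]
        have h2 : Matrix.vecMulVec v v * Q = 0 := by
          rw [Matrix.vecMulVec_mul, hvQ]
          ext x y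
          simp [Matrix.vecMulVec_apply]
        have h3 : Matrix.vecMulVec v v * Matrix.vecMulVec v v =
            (v ⬝ᵥ v) • Matrix.vecMulVec v v := by
          rw [Matrix.mul_vecMulVec, hmv]
          ext x y
          simp only [Matrix.vecMulVec_apply, Matrix.smul_apply, Pi.smul_apply, smul_eq_mul]
          ring
        rw [Matrix.add_mul, Matrix.mul_add, Matrix.mul_add, hi, Matrix.mul_smul, h1,
          Matrix.smul_mul, h2, Matrix.smul_mul, Matrix.mul_smul, h3]
        simp only [smul_zero, add_zero, zero_add]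
        rw [smul_smul, smul_smul, mul_assoc, inv_mul_cancel₀ hcne, mul_one]
      · rw [Matrix.trace_add, Matrix.trace_smul, Matrix.trace_vecMulVec, smul_eq_mul,
          inv_mul_cancel₀ hcne, List.length_cons]
        push_cast
        linarith
      · intro w hw
        rw [Matrix.add_mulVec, Matrix.smul_mulVec, hmv]
        rcases List.mem_cons.1 hw with rfl | hw
        · rw [hvu, smul_smul, inv_mul_cancel₀ hcne, one_smul, hv]
          abel
        · rw [hu w hw, hdot w (hu w hw), zero_smul, smul_zero, add_zero]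

/-- If `P x y = c - ∑ m, (a x m * b y m + a y m * b x m)`, `c ≥ 0` and the trace of `P` is nonnegative, then
`(tr P) ^ 2 ≤ (r + 1) ∑ P x y ^ 2`. -/
theorem trace_bound {ι : Type*} [Fintype ι] (c : ℝ) (_hc : 0 ≤ c)
    (a b : X → ι → ℝ) (P : X → X → ℝ)
    (hP : ∀ x y, P x y = c - ∑ m, (a x m * b y m + a y m * b x m))
    (h0 : 0 ≤ ∑ x, P x x) :
    (∑ x, P x x) ^ 2 ≤ ((Fintype.card ι : ℝ) + 1) * ∑ x, ∑ y, P x y ^ 2 := by
  classical
  obtain ⟨Q, hs, hi, ht, hu⟩ := exists_proj ((fun _ : X => (1 : ℝ)) ::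
    ((Finset.univ : Finset ι).toList.map fun m => fun x => a x m - b x m))
  have hlen : ((((fun _ : X => (1 : ℝ)) ::
    ((Finset.univ : Finset ι).toList.map fun m => fun x => a x m - b x m)).length : ℕ) : ℝ) =
      (Fintype.card ι : ℝ) + 1 := by
    rw [List.length_cons, List.length_map, Finset.length_toList, Finset.card_univ]
    push_cast
    ring
  rw [hlen] at ht
  have hu1 : Q *ᵥ (fun _ : X => (1 : ℝ)) = fun _ => 1 := hu _ (by simp)
  have hud : ∀ m, Q *ᵥ (fun x => a x m - b x m) = fun x => a x m - b x m := by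
    intro m
    exact hu _ (by simp)
  -- the complementary projection
  obtain ⟨R, hR⟩ : ∃ R : Matrix X X ℝ, R = 1 - Q := ⟨_, rfl⟩
  have hRs : Rᵀ = R := by rw [hR, Matrix.transpose_sub, Matrix.transpose_one, hs]
  have hRi : R * R = R := by
    rw [hR, Matrix.sub_mul, Matrix.mul_sub, Matrix.mul_sub, hi]
    simp
  have hR1 : R *ᵥ (fun _ : X => (1 : ℝ)) = 0 := by
    rw [hR, Matrix.sub_mulVec, hu1, Matrix.one_mulVec, sub_self]
  have hRd : ∀ m, R *ᵥ (fun x => a x m - b x m) = 0 := by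
    intro m
    rw [hR, Matrix.sub_mulVec, hud, Matrix.one_mulVec, sub_self]
  -- the quadratic form of a vector
  have hq : ∀ w : X → ℝ, ∑ x, ∑ y, R x y * (w y * w x) = (R *ᵥ w) ⬝ᵥ (R *ᵥ w) := by
    intro w
    have h1 : (R *ᵥ w) ⬝ᵥ (R *ᵥ w) = (R *ᵥ w) ⬝ᵥ w := by
      rw [Matrix.dotProduct_mulVec]
      congr 1
      conv_lhs => rw [← hRs]
      rw [Matrix.vecMul_transpose, Matrix.mulVec_mulVec, hRs, hRi]
    rw [h1]
    simp only [Matrix.mulVec, dotProduct, Finset.sum_mul]
    exact Finset.sum_congr rfl fun x _ => Finset.sum_congr rfl fun y _ => by ring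
  have hPq : ∀ x y, P y x = c * ((fun _ : X => (1 : ℝ)) y * (fun _ : X => (1 : ℝ)) x) -
      ∑ m, (1 / 2 : ℝ) * ((fun x => a x m + b x m) y * (fun x => a x m + b x m) x) +
      ∑ m, (1 / 2 : ℝ) * ((fun x => a x m - b x m) y * (fun x => a x m - b x m) x) := by
    intro x y
    rw [hP, sub_add, ← Finset.sum_sub_distrib]
    congr 1
    · simp
    · exact Finset.sum_congr rfl fun m _ => by ring
  have hRP : ∑ x, ∑ y, R x y * P y x ≤ 0 := by
    have h1 : ∑ x, ∑ y, R x y * P y x =
        c * (∑ x, ∑ y, R x y * ((fun _ : X => (1 : ℝ)) y * (fun _ : X => (1 : ℝ)) x)) -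
        ∑ m, (1 / 2 : ℝ) * (∑ x, ∑ y, R x y *
          ((fun x => a x m + b x m) y * (fun x => a x m + b x m) x)) +
        ∑ m, (1 / 2 : ℝ) * (∑ x, ∑ y, R x y *
          ((fun x => a x m - b x m) y * (fun x => a x m - b x m) x)) := by
      have h2 : ∀ (g : ι → X → X → ℝ), ∑ x, ∑ y, R x y * (∑ m, (1 / 2 : ℝ) * g m y x) =
          ∑ m, (1 / 2 : ℝ) * (∑ x, ∑ y, R x y * g m y x) := by
        intro g
        simp only [Finset.mul_sum]
        rw [Finset.sum_comm' (s := (Finset.univ : Finset ι)) (t := fun _ => Finset.univ)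
          (t' := Finset.univ) (s' := fun _ => Finset.univ) (by simp)]
        refine Finset.sum_congr rfl fun x _ => ?_
        rw [Finset.sum_comm]
        exact Finset.sum_congr rfl fun y _ => Finset.sum_congr rfl fun m _ => by ring
      rw [← h2 (fun m y x => (fun x => a x m + b x m) y * (fun x => a x m + b x m) x),
        ← h2 (fun m y x => (fun x => a x m - b x m) y * (fun x => a x m - b x m) x),
        Finset.mul_sum, ← Finset.sum_sub_distrib, ← Finset.sum_add_distrib]
      refine Finset.sum_congr rfl fun x _ => ?_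
      rw [Finset.mul_sum, ← Finset.sum_sub_distrib, ← Finset.sum_add_distrib]
      refine Finset.sum_congr rfl fun y _ => ?_
      rw [hPq]
      ring
    rw [h1, hq, hR1]
    have h3 : ∑ m, (1 / 2 : ℝ) * (∑ x, ∑ y, R x y *
          ((fun x => a x m - b x m) y * (fun x => a x m - b x m) x)) = 0 := by
      refine Finset.sum_eq_zero fun m _ => ?_
      rw [hq, hRd]
      simp
    have h4 : 0 ≤ ∑ m, (1 / 2 : ℝ) * (∑ x, ∑ y, R x y *
          ((fun x => a x m + b x m) y * (fun x => a x m + b x m) x)) := by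
      refine Finset.sum_nonneg fun m _ => ?_
      rw [hq]
      exact mul_nonneg (by norm_num) (Finset.sum_nonneg fun x _ => mul_self_nonneg _)
    rw [h3]
    simp only [dotProduct_zero, mul_zero]
    linarith
  have hsplit : ∑ x, P x x = ∑ x, ∑ y, Q x y * P y x + ∑ x, ∑ y, R x y * P y x := by
    rw [← Finset.sum_add_distrib]
    refine Finset.sum_congr rfl fun x _ => ?_
    rw [← Finset.sum_add_distrib]
    have h1 : ∀ y, Q x y * P y x + R x y * P y x = if x = y then P y x else 0 := by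
      intro y
      rw [hR, Matrix.sub_apply, Matrix.one_apply]
      split_ifs <;> ring
    rw [Finset.sum_congr rfl fun y _ => h1 y]
    simp
  have hle : ∑ x, P x x ≤ ∑ x, ∑ y, Q x y * P y x := by linarith
  have hQ2 : ∑ x, ∑ y, Q x y ^ 2 ≤ (Fintype.card ι : ℝ) + 1 := by
    have h1 : ∑ x, ∑ y, Q x y ^ 2 = Q.trace := by
      conv_rhs => rw [← hi]
      simp only [Matrix.trace, Matrix.diag_apply, Matrix.mul_apply]
      refine Finset.sum_congr rfl fun x _ => Finset.sum_congr rfl fun y _ => ?_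
      have h2 : Q y x = Q x y := by
        conv_lhs => rw [← hs]
        rfl
      rw [h2]
      ring
    rw [h1]
    exact ht
  have hCS : (∑ x, ∑ y, Q x y * P y x) ^ 2 ≤
      (∑ x, ∑ y, Q x y ^ 2) * (∑ x, ∑ y, P y x ^ 2) := by
    have h1 := Finset.sum_mul_sq_le_sq_mul_sq (Finset.univ : Finset (X × X))
      (fun p => Q p.1 p.2) (fun p => P p.2 p.1)
    rw [Fintype.sum_prod_type, Fintype.sum_prod_type, Fintype.sum_prod_type] at h1
    exact h1
  have hsymm : ∑ x, ∑ y, P y x ^ 2 = ∑ x, ∑ y, P x y ^ 2 := Finset.sum_comm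
  calc (∑ x, P x x) ^ 2 ≤ (∑ x, ∑ y, Q x y * P y x) ^ 2 := pow_le_pow_left₀ h0 hle 2
    _ ≤ (∑ x, ∑ y, Q x y ^ 2) * (∑ x, ∑ y, P y x ^ 2) := hCS
    _ ≤ ((Fintype.card ι : ℝ) + 1) * ∑ x, ∑ y, P x y ^ 2 := by
      rw [hsymm]
      exact mul_le_mul_of_nonneg_right hQ2
        (Finset.sum_nonneg fun x _ => Finset.sum_nonneg fun y _ => sq_nonneg _)

end Pool.Agent.H9.FM
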